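import Pool.Agent.Helper56_Alt.Model

/-! The model is an alternative algebra. -/

namespace Pool.Agent.Helper56Alt

universe u v

theorem dd_ne {s t : Nat} (h : dd s t ≠ 0) : s < 64 ∧ t < 64 ∧ Nat.land s t = 0 := by
  unfold dd at h
  cases h1 : (Nat.blt s 64 && (Nat.blt t 64 && Nat.beq (Nat.land s t) 0))
  · rw [h1] at h
    exact absurd rfl h
  · simp only [Bool.and_eq_true, Nat.blt_eq, Nat.beq_eq] at h1
    exact ⟨h1.1, h1.2.1, h1.2.2⟩

/-- Pairwise disjoint masks. -/
def Good (s t r : Nat) : Prop :=
  (s < 64 ∧ t < 64 ∧ r < 64) ∧ Nat.land s t = 0 ∧ Nat.land s r = 0 ∧ Nat.land t r = 0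

theorem kap_zero {s t r : Nat} (h : ¬ Good s t r) : kap s t r = 0 := by
  have e1 : dd s t * dd (Nat.lor s t) r = 0 := by
    by_contra hne
    have h1 := dd_ne (left_ne_zero_of_mul hne)
    have h2 := dd_ne (right_ne_zero_of_mul hne)
    apply h
    have h3 : (s ||| t) &&& r = 0 := h2.2.2
    rw [Nat.and_or_distrib_right, Nat.or_eq_zero_iff] at h3
    exact ⟨⟨h1.1, h1.2.1, h2.2.1⟩, h1.2.2, h3.1, h3.2⟩
  have e2 : dd t r * dd s (Nat.lor t r) = 0 := by
    by_contra hne
    have h1 := dd_ne (left_ne_zero_of_mul hne)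
    have h2 := dd_ne (right_ne_zero_of_mul hne)
    apply h
    have h3 : s &&& (t ||| r) = 0 := h2.2.2
    rw [Nat.and_or_distrib_left, Nat.or_eq_zero_iff] at h3
    exact ⟨⟨h2.1, h1.1, h1.2.1⟩, h3.1, h3.2, h1.2.2⟩
  show dd s t * dd (Nat.lor s t) r + 2 * (dd t r * dd s (Nat.lor t r)) = 0
  rw [e1, e2]

theorem good_swap1 {s t r : Nat} (h : Good t s r) : Good s t r := by
  obtain ⟨⟨h1, h2, h3⟩, h4, h5, h6⟩ := h
  refine ⟨⟨h2, h1, h3⟩, ?_, h6, h5⟩
  have h4' : t &&& s = 0 := h4
  rw [Nat.and_comm] at h4'
  exact h4'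

theorem good_swap2 {s t r : Nat} (h : Good s r t) : Good s t r := by
  obtain ⟨⟨h1, h2, h3⟩, h4, h5, h6⟩ := h
  refine ⟨⟨h1, h3, h2⟩, h5, h4, ?_⟩
  have h6' : r &&& t = 0 := h6
  rw [Nat.and_comm] at h6'
  exact h6'

theorem kap_check {s t r : Nat} (h : Good s t r) :
    (kap s t r + kap t s r) % 3 = 0 ∧ (kap s t r + kap s r t) % 3 = 0 := by
  obtain ⟨⟨h1, h2, h3⟩, h4, h5, h6⟩ := h
  have a := allB_spec _ _ chkA_true s h1
  have b := allB_spec _ _ a t h2
  have e4 : dj s t = true := by
    unfold dj; rw [h4]; rfl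
  have e5 : dj s r = true := by
    unfold dj; rw [h5]; rfl
  have e6 : dj t r = true := by
    unfold dj; rw [h6]; rfl
  simp only [e4, Bool.not_true, Bool.false_or] at b
  have c := allB_spec _ _ b r h3
  simp only [e5, e6, Bool.not_true, Bool.false_or, Bool.and_eq_true, Nat.beq_eq] at c
  exact c

theorem kap_left (s t r : Nat) : (kap s t r + kap t s r) % 3 = 0 := by
  by_cases h : Good s t r
  · exact (kap_check h).1
  · rw [kap_zero h, kap_zero (fun h' => h (good_swap1 h'))]

theorem kap_right (s t r : Nat) : (kap s t r + kap s r t) % 3 = 0 := by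
  by_cases h : Good s t r
  · exact (kap_check h).2
  · rw [kap_zero h, kap_zero (fun h' => h (good_swap2 h'))]

section

variable (K : Type u) [CommRing K]

/-- The underlying module of the model. -/
def M : Type u := ℕ →₀ K

noncomputable instance : AddCommGroup (M K) := inferInstanceAs (AddCommGroup (ℕ →₀ K))

noncomputable instance instModM (R : Type v) [Semiring R] [Module R K] : Module R (M K) :=
  inferInstanceAs (Module R (ℕ →₀ K))

/-- Basis vectors. -/
noncomputable def bs (s : ℕ) (a : K) : M K := Finsupp.single s a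

/-- Left multiplication by a basis vector. -/
noncomputable def mulB (s : ℕ) : M K →ₗ[K] M K :=
  Finsupp.linearCombination K (fun t : ℕ => bs K (s ||| t) (dd s t : K))

/-- The multiplication. -/
noncomputable def mulL : M K →ₗ[K] M K →ₗ[K] M K :=
  Finsupp.linearCombination K (fun s : ℕ => mulB K s)

variable {K}

theorem bs_smul (c : K) (s : ℕ) (a : K) : c • bs K s a = bs K s (c * a) :=
  Finsupp.smul_single c s a

theorem bs_add (s : ℕ) (a b : K) : bs K s (a + b) = bs K s a + bs K s b :=
  Finsupp.single_add s a b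

theorem bs_sub (s : ℕ) (a b : K) : bs K s (a - b) = bs K s a - bs K s b :=
  Finsupp.single_sub s a b

theorem bs_zero (s : ℕ) : bs K s 0 = 0 := Finsupp.single_zero s

theorem mulB_bs (s t : ℕ) (b : K) : mulB K s (bs K t b) = b • bs K (s ||| t) (dd s t : K) :=
  Finsupp.linearCombination_single K b t

theorem mulL_bs' (s : ℕ) (a : K) : mulL K (bs K s a) = a • mulB K s :=
  Finsupp.linearCombination_single K a s

theorem mulL_bs (s t : ℕ) (a b : K) :
    mulL K (bs K s a) (bs K t b) = bs K (s ||| t) (a * b * dd s t) := by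
  rw [mulL_bs', LinearMap.smul_apply, mulB_bs, bs_smul, bs_smul, mul_assoc]

noncomputable instance : NonUnitalNonAssocRing (M K) :=
  { (inferInstance : AddCommGroup (M K)) with
    mul := fun f g => mulL K f g
    left_distrib := fun f g h => map_add (mulL K f) g h
    right_distrib := fun f g h => LinearMap.map_add₂ (mulL K) f g h
    zero_mul := fun f => LinearMap.map_zero₂ (mulL K) f
    mul_zero := fun f => map_zero (mulL K f) }

theorem mul_def' (f g : M K) : f * g = mulL K f g := rfl

theorem bs_mul_bs (s t : ℕ) (a b : K) :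
    bs K s a * bs K t b = bs K (s ||| t) (a * b * dd s t) := mulL_bs s t a b

theorem alg_smul {Φ : Type v} [CommRing Φ] [Algebra Φ K] (r : Φ) (f : M K) :
    r • f = (algebraMap Φ K r) • f := by
  have h : ∀ f : ℕ →₀ K, r • f = (algebraMap Φ K r) • f := by
    intro f
    ext i
    simp [Algebra.smul_def]
  exact h f

instance {Φ : Type v} [CommRing Φ] [Algebra Φ K] : IsScalarTower Φ (M K) (M K) := by
  constructor
  intro r f g
  rw [smul_eq_mul, smul_eq_mul, mul_def', mul_def', alg_smul r f, alg_smul r (mulL K f g), map_smul,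
    LinearMap.smul_apply]

instance {Φ : Type v} [CommRing Φ] [Algebra Φ K] : SMulCommClass Φ (M K) (M K) := by
  constructor
  intro r f g
  rw [smul_eq_mul, smul_eq_mul, mul_def', mul_def', alg_smul r g, alg_smul r (mulL K f g), map_smul]

theorem M_ind {p : M K → Prop} (f : M K) (h0 : p 0) (ha : ∀ f g, p f → p g → p (f + g))
    (hs : ∀ s a, p (bs K s a)) : p f :=
  Finsupp.induction_linear f h0 ha hs

theorem cast_of_mod {n : ℕ} (h3 : (3 : K) = 0) (hn : n % 3 = 0) : (n : K) = 0 := by
  obtain ⟨k, rfl⟩ := Nat.dvd_of_mod_eq_zero hn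
  push_cast
  rw [h3, zero_mul]

theorem assoc_bs (h3 : (3 : K) = 0) (s t r : ℕ) (a b c : K) :
    associator (bs K s a) (bs K t b) (bs K r c) = bs K (s ||| t ||| r) (a * b * c * kap s t r) := by
  rw [associator, bs_mul_bs, bs_mul_bs, bs_mul_bs, bs_mul_bs, Nat.or_assoc, ← bs_sub]
  congr 1
  have e : (kap s t r : K) = dd s t * dd (s ||| t) r + 2 * (dd t r * dd s (t ||| r)) := by
    have : kap s t r = dd s t * dd (s ||| t) r + 2 * (dd t r * dd s (t ||| r)) := rfl
    rw [this]
    push_cast
    ring
  rw [e]
  linear_combination (-(a * b * c * dd t r * dd s (t ||| r))) * h3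

theorem assoc_add1 (f f' g h : M K) :
    associator (f + f') g h = associator f g h + associator f' g h := by
  simp only [associator, add_mul]; abel

theorem assoc_add2 (f g g' h : M K) :
    associator f (g + g') h = associator f g h + associator f g' h := by
  simp only [associator, add_mul, mul_add]; abel

theorem assoc_add3 (f g h h' : M K) :
    associator f g (h + h') = associator f g h + associator f g h' := by
  simp only [associator, mul_add]; abel

theorem assoc_zero1 (g h : M K) : associator 0 g h = 0 := by simp [associator]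
theorem assoc_zero2 (g h : M K) : associator g 0 h = 0 := by simp [associator]
theorem assoc_zero3 (g h : M K) : associator g h 0 = 0 := by simp [associator]

theorem anti_left (h3 : (3 : K) = 0) (f g h : M K) : associator f g h + associator g f h = 0 := by
  refine M_ind (p := fun f => associator f g h + associator g f h = 0) f ?_ ?_ ?_
  · rw [assoc_zero1, assoc_zero2, add_zero]
  · intro f f' h1 h2
    rw [assoc_add1, assoc_add2, add_add_add_comm, h1, h2, add_zero]
  intro s a
  refine M_ind (p := fun g => associator (bs K s a) g h + associator g (bs K s a) h = 0) g ?_ ?_ ?_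
  · rw [assoc_zero1, assoc_zero2, add_zero]
  · intro f f' h1 h2
    rw [assoc_add1, assoc_add2, add_add_add_comm, h1, h2, add_zero]
  intro t b
  refine M_ind (p := fun h => associator (bs K s a) (bs K t b) h +
    associator (bs K t b) (bs K s a) h = 0) h ?_ ?_ ?_
  · rw [assoc_zero3, assoc_zero3, add_zero]
  · intro f f' h1 h2
    rw [assoc_add3, assoc_add3, add_add_add_comm, h1, h2, add_zero]
  intro r c
  rw [assoc_bs h3, assoc_bs h3, Nat.or_comm t s, ← bs_add]
  have e : a * b * c * (kap s t r : K) + b * a * c * (kap t s r : K) =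
      a * b * c * ((kap s t r + kap t s r : ℕ) : K) := by
    push_cast
    ring
  rw [e, cast_of_mod h3 (kap_left s t r), mul_zero, bs_zero]

theorem anti_right (h3 : (3 : K) = 0) (f g h : M K) : associator f g h + associator f h g = 0 := by
  refine M_ind (p := fun f => associator f g h + associator f h g = 0) f ?_ ?_ ?_
  · rw [assoc_zero1, assoc_zero1, add_zero]
  · intro f f' h1 h2
    rw [assoc_add1, assoc_add1, add_add_add_comm, h1, h2, add_zero]
  intro s a
  refine M_ind (p := fun g => associator (bs K s a) g h + associator (bs K s a) h g = 0) g ?_ ?_ ?_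
  · rw [assoc_zero2, assoc_zero3, add_zero]
  · intro f f' h1 h2
    rw [assoc_add2, assoc_add3, add_add_add_comm, h1, h2, add_zero]
  intro t b
  refine M_ind (p := fun h => associator (bs K s a) (bs K t b) h +
    associator (bs K s a) h (bs K t b) = 0) h ?_ ?_ ?_
  · rw [assoc_zero2, assoc_zero3, add_zero]
  · intro f f' h1 h2
    rw [assoc_add2, assoc_add3, add_add_add_comm, h1, h2, add_zero]
  intro r c
  have eo : s ||| r ||| t = s ||| t ||| r := by
    rw [Nat.or_assoc, Nat.or_comm r t, ← Nat.or_assoc]
  rw [assoc_bs h3, assoc_bs h3, eo, ← bs_add]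
  have e : a * b * c * (kap s t r : K) + a * c * b * (kap s r t : K) =
      a * b * c * ((kap s t r + kap s r t : ℕ) : K) := by
    push_cast
    ring
  rw [e, cast_of_mod h3 (kap_right s t r), mul_zero, bs_zero]

theorem three_smul_M (h3 : (3 : K) = 0) (f : M K) : f + f + f = 0 := by
  have : (3 : K) • f = f + f + f := by
    have e : (3 : K) = 1 + 1 + 1 := by norm_num
    rw [e, add_smul, add_smul, one_smul]
  rw [← this, h3, zero_smul]

theorem alt_of_anti (h3 : (3 : K) = 0) {z : M K} (h : z + z = 0) : z = 0 := by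
  have := three_smul_M h3 z
  rwa [h, zero_add] at this

theorem alt_left (h3 : (3 : K) = 0) (f g : M K) : associator f f g = 0 :=
  alt_of_anti h3 (anti_left h3 f f g)

theorem alt_right (h3 : (3 : K) = 0) (f g : M K) : associator g f f = 0 :=
  alt_of_anti h3 (anti_right h3 g f f)

end

end Pool.Agent.Helper56Alt
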