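import Mathlib

/-! The free alternative algebra, and the words used by the certificate. -/

namespace Pool.Agent.Helper56Alt

universe u v

/-- The two-sided ideal of the free nonassociative algebra on `X` generated by all associators
`(f, f, g)` and `(g, f, f)`: the intersection of all submodules that contain these elements and are
closed under left and right multiplication by arbitrary elements. -/
noncomputable def altIdeal (Φ : Type u) [CommRing Φ] (X : Type v) :
    Submodule Φ (FreeNonUnitalNonAssocAlgebra Φ X) :=
  sInf {N | (∀ f g : FreeNonUnitalNonAssocAlgebra Φ X,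
      associator f f g ∈ N ∧ associator g f f ∈ N) ∧
    ∀ n ∈ N, ∀ a : FreeNonUnitalNonAssocAlgebra Φ X, a * n ∈ N ∧ n * a ∈ N}

/-- The free alternative algebra `Alt_Φ[X]`. -/
abbrev FreeAlt (Φ : Type u) [CommRing Φ] (X : Type v) : Type (max u v) :=
  FreeNonUnitalNonAssocAlgebra Φ X ⧸ altIdeal Φ X

section

variable {Φ : Type u} [CommRing Φ] {X : Type v}

theorem assoc_left_mem (f g : FreeNonUnitalNonAssocAlgebra Φ X) :
    associator f f g ∈ altIdeal Φ X := by
  rw [altIdeal, Submodule.mem_sInf]
  intro N hN
  exact (hN.1 f g).1

theorem assoc_right_mem (f g : FreeNonUnitalNonAssocAlgebra Φ X) :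
    associator g f f ∈ altIdeal Φ X := by
  rw [altIdeal, Submodule.mem_sInf]
  intro N hN
  exact (hN.1 f g).2

theorem mul_left_mem {n : FreeNonUnitalNonAssocAlgebra Φ X} (hn : n ∈ altIdeal Φ X)
    (a : FreeNonUnitalNonAssocAlgebra Φ X) : a * n ∈ altIdeal Φ X := by
  rw [altIdeal, Submodule.mem_sInf] at *
  intro N hN
  exact (hN.2 n (hn N hN) a).1

theorem mul_right_mem {n : FreeNonUnitalNonAssocAlgebra Φ X} (hn : n ∈ altIdeal Φ X)
    (a : FreeNonUnitalNonAssocAlgebra Φ X) : n * a ∈ altIdeal Φ X := by
  rw [altIdeal, Submodule.mem_sInf] at *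
  intro N hN
  exact (hN.2 n (hn N hN) a).2

theorem lin_left_mem (a b c : FreeNonUnitalNonAssocAlgebra Φ X) :
    associator a b c + associator b a c ∈ altIdeal Φ X := by
  have h := (altIdeal Φ X).sub_mem ((altIdeal Φ X).sub_mem (assoc_left_mem (a + b) c)
    (assoc_left_mem a c)) (assoc_left_mem b c)
  have e : associator (a + b) (a + b) c - associator a a c - associator b b c =
      associator a b c + associator b a c := by
    simp only [associator, add_mul, mul_add]
    abel
  rwa [e] at h

theorem lin_right_mem (a b c : FreeNonUnitalNonAssocAlgebra Φ X) :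
    associator a b c + associator a c b ∈ altIdeal Φ X := by
  have h := (altIdeal Φ X).sub_mem ((altIdeal Φ X).sub_mem (assoc_right_mem (b + c) a)
    (assoc_right_mem b a)) (assoc_right_mem c a)
  have e : associator a (b + c) (b + c) - associator a b b - associator a c c =
      associator a b c + associator a c b := by
    simp only [associator, add_mul, mul_add]
    abel
  rwa [e] at h

end

/-- Nonassociative words in variables labelled by natural numbers. -/
inductive W where
  | l (n : Nat) : W
  | n (a b : W) : W

/-- Boolean equality of words. -/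
def W.beq : W → W → Bool
  | .l m, .l k => Nat.beq m k
  | .n a b, .n c d => W.beq a c && W.beq b d
  | _, _ => false

theorem W.eq_of_beq : ∀ {a b : W}, W.beq a b = true → a = b
  | .l m, .l k, h => by rw [Nat.eq_of_beq_eq_true h]
  | .n a b, .n c d, h => by
      simp only [W.beq, Bool.and_eq_true] at h
      rw [W.eq_of_beq h.1, W.eq_of_beq h.2]
  | .l _, .n _ _, h => by simp [W.beq] at h
  | .n _ _, .l _, h => by simp [W.beq] at h

/-- A hash code. -/
def W.code : W → Nat
  | .l m => m + 3
  | .n a b => Nat.mod (Nat.add (Nat.mul (W.code a) 7919) (Nat.mul (W.code b) 104729)) 1048573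

/-- Relabelling. -/
def W.map (σ : Nat → Nat) : W → W
  | .l m => .l (σ m)
  | .n a b => .n (W.map σ a) (W.map σ b)

/-- An instance of a linearised alternative law inside a product context. -/
inductive C where
  | h0 (a b c : W) : C
  | h1 (a b c : W) : C
  | L (u : W) (c : C) : C
  | R (c : C) (v : W) : C

/-- Relabelling. -/
def C.map (σ : Nat → Nat) : C → C
  | .h0 a b c => .h0 (a.map σ) (b.map σ) (c.map σ)
  | .h1 a b c => .h1 (a.map σ) (b.map σ) (c.map σ)
  | .L u c => .L (u.map σ) (C.map σ c)
  | .R c v => .R (C.map σ c) (v.map σ)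

/-- The four signed words of an instance. -/
def C.terms : C → (W → W) → List (Bool × W)
  | .h0 a b c, f => [(true, f (.n (.n a b) c)), (false, f (.n a (.n b c))),
      (true, f (.n (.n b a) c)), (false, f (.n b (.n a c)))]
  | .h1 a b c, f => [(true, f (.n (.n a b) c)), (false, f (.n a (.n b c))),
      (true, f (.n (.n a c) b)), (false, f (.n a (.n c b)))]
  | .L u c, f => C.terms c (fun w => f (.n u w))
  | .R c v, f => C.terms c (fun w => f (.n w v))

section

variable {F : Type u} [NonUnitalNonAssocRing F] (x : Nat → F)

/-- Evaluation of a word. -/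
def W.ev : W → F
  | .l m => x m
  | .n a b => W.ev a * W.ev b

/-- Evaluation of an instance. -/
def C.ev : C → F
  | .h0 a b c => associator (a.ev x) (b.ev x) (c.ev x) + associator (b.ev x) (a.ev x) (c.ev x)
  | .h1 a b c => associator (a.ev x) (b.ev x) (c.ev x) + associator (a.ev x) (c.ev x) (b.ev x)
  | .L u c => u.ev x * C.ev c
  | .R c v => C.ev c * v.ev x

/-- Signed multiple. -/
def sg (s : Bool) (a : F) : F := if s then a else -a

/-- Signed sum of a list of words. -/
def lsum (s : Bool) : List (Bool × W) → F
  | [] => 0
  | (b, w) :: t => sg (b == s) (w.ev x) + lsum s t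

end

theorem C.ev_mem {Φ : Type u} [CommRing Φ] {X : Type v} (x : Nat → FreeNonUnitalNonAssocAlgebra Φ X) :
    ∀ c : C, c.ev x ∈ altIdeal Φ X
  | .h0 _ _ _ => lin_left_mem _ _ _
  | .h1 _ _ _ => lin_right_mem _ _ _
  | .L _ c => mul_left_mem (C.ev_mem x c) _
  | .R c _ => mul_right_mem (C.ev_mem x c) _

theorem sg_ev_mem {Φ : Type u} [CommRing Φ] {X : Type v} (x : Nat → FreeNonUnitalNonAssocAlgebra Φ X)
    (s : Bool) (c : C) : sg s (c.ev x) ∈ altIdeal Φ X := by
  unfold sg
  split
  · exact C.ev_mem x c
  · exact (altIdeal Φ X).neg_mem (C.ev_mem x c)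

section

variable {F : Type u} [NonUnitalNonAssocRing F] (x : Nat → F)

/-- The terms of an instance sum to its value, through an additive context. -/
theorem C.lsum_terms (s : Bool) : ∀ (c : C) (f : W → W) (φ : F →+ F)
    (_ : ∀ w, (f w).ev x = φ (w.ev x)),
    lsum x s (c.terms f) = sg s (φ (c.ev x))
  | .h0 a b c, f, φ, hf => by
      cases s <;> simp [C.terms, lsum, sg, hf, C.ev, W.ev, associator] <;> abel
  | .h1 a b c, f, φ, hf => by
      cases s <;> simp [C.terms, lsum, sg, hf, C.ev, W.ev, associator] <;> abel
  | .L u c, f, φ, hf => by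
      rw [C.terms, C.ev]
      rw [C.lsum_terms s c _ (φ.comp (AddMonoidHom.mulLeft (u.ev x)))]
      · rfl
      · intro w
        rw [hf]
        rfl
  | .R c v, f, φ, hf => by
      rw [C.terms, C.ev]
      rw [C.lsum_terms s c _ (φ.comp (AddMonoidHom.mulRight (v.ev x)))]
      · rfl
      · intro w
        rw [hf]
        rfl

theorem C.lsum_terms_id (s : Bool) (c : C) : lsum x s (c.terms (fun w => w)) = sg s (c.ev x) := by
  have h := C.lsum_terms x s c (fun w => w) (AddMonoidHom.id F) (fun w => rfl)
  simpa using h

end

/-- Search trees of words with integer coefficients. -/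
inductive T where
  | e : T
  | nd (l : T) (k : Nat) (w : W) (c : Int) (r : T) : T

/-- Strict node constructor, forcing the left subtree. -/
def ndL (l : T) (k : Nat) (w : W) (c : Int) (r : T) : T :=
  match l with
  | .e => .nd .e k w c r
  | .nd a b d f g => .nd (.nd a b d f g) k w c r

/-- Strict node constructor, forcing the right subtree. -/
def ndR (l : T) (k : Nat) (w : W) (c : Int) (r : T) : T :=
  match r with
  | .e => .nd l k w c .e
  | .nd a b d f g => .nd l k w c (.nd a b d f g)

theorem ndL_eq (l : T) (k : Nat) (w : W) (c : Int) (r : T) : ndL l k w c r = .nd l k w c r := by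
  cases l <;> rfl

theorem ndR_eq (l : T) (k : Nat) (w : W) (c : Int) (r : T) : ndR l k w c r = .nd l k w c r := by
  cases r <;> rfl

/-- Insertion. -/
def T.ins (k' : Nat) (w' : W) (c' : Int) : T → T
  | .e => .nd .e k' w' c' .e
  | .nd l k w c r =>
    bif Nat.blt k' k then ndL (T.ins k' w' c' l) k w c r
    else bif Nat.blt k k' then ndR l k w c (T.ins k' w' c' r)
    else bif W.beq w w' then .nd l k w (Int.add c c') r
    else ndR l k w c (T.ins k' w' c' r)

section

variable {F : Type u} [NonUnitalNonAssocRing F] (x : Nat → F)

/-- Value of a search tree. -/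
def T.ev : T → F
  | .e => 0
  | .nd l _ w c r => T.ev l + c • w.ev x + T.ev r

theorem T.ev_ins (k' : Nat) (w' : W) (c' : Int) : ∀ t : T,
    (T.ins k' w' c' t).ev x = c' • w'.ev x + t.ev x
  | .e => by simp [T.ins, T.ev]
  | .nd l k w c r => by
      rw [T.ins]
      cases h1 : Nat.blt k' k
      · cases h2 : Nat.blt k k'
        · cases h3 : W.beq w w'
          · simp only [cond_false, ndR_eq, T.ev, T.ev_ins k' w' c' r]
            abel
          · have := W.eq_of_beq h3
            subst this
            simp only [cond_false, cond_true, T.ev]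
            have : Int.add c c' = c + c' := rfl
            rw [this, add_smul]
            abel
        · simp only [cond_false, cond_true, ndR_eq, T.ev, T.ev_ins k' w' c' r]
          abel
      · simp only [cond_true, ndL_eq, T.ev, T.ev_ins k' w' c' l]
        abel

end

/-- Insert a list of signed words. -/
def insL (s : Bool) : List (Bool × W) → T → T
  | [], t => t
  | (b, w) :: m, t =>
    match T.ins w.code w (bif b == s then 1 else -1) t with
    | .e => insL s m .e
    | .nd a b' d f g => insL s m (.nd a b' d f g)

/-- Insert all instances. -/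
def insAll (σ : Nat → Nat) (s : Bool) : List (Bool × C) → T → T
  | [], t => t
  | (b, c) :: m, t =>
    match insL (b == s) ((c.map σ).terms (fun w => w)) t with
    | .e => insAll σ s m .e
    | .nd a b' d f g => insAll σ s m (.nd a b' d f g)

theorem matchT (f : T → T) (t : T) :
    (match t with
    | .e => f .e
    | .nd a b' d p q => f (.nd a b' d p q)) = f t := by
  cases t <;> rfl

section

variable {F : Type u} [NonUnitalNonAssocRing F] (x : Nat → F)

theorem ev_insL (s : Bool) : ∀ (m : List (Bool × W)) (t : T),
    (insL s m t).ev x = lsum x s m + t.ev x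
  | [], t => by simp [insL, lsum]
  | (b, w) :: m, t => by
      have h := matchT (insL s m) (T.ins w.code w (bif b == s then 1 else -1) t)
      have h' : insL s ((b, w) :: m) t =
          insL s m (T.ins w.code w (bif b == s then 1 else -1) t) := by
        rw [← h]
        rfl
      rw [h', ev_insL s m, T.ev_ins, lsum]
      have : (bif b == s then (1 : Int) else -1) • w.ev x = sg (b == s) (w.ev x) := by
        cases h3 : (b == s) <;> simp [sg]
      rw [this]
      abel

end

theorem insAll_mem {Φ : Type u} [CommRing Φ] {X : Type v}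
    (x : Nat → FreeNonUnitalNonAssocAlgebra Φ X) (σ : Nat → Nat) (s : Bool) :
    ∀ (m : List (Bool × C)) (t : T), t.ev x ∈ altIdeal Φ X →
      (insAll σ s m t).ev x ∈ altIdeal Φ X
  | [], t, ht => ht
  | (b, c) :: m, t, ht => by
      have h := matchT (insAll σ s m) (insL (b == s) ((c.map σ).terms (fun w => w)) t)
      have h' : insAll σ s ((b, c) :: m) t =
          insAll σ s m (insL (b == s) ((c.map σ).terms (fun w => w)) t) := by
        rw [← h]
        rfl
      rw [h']
      apply insAll_mem x σ s m
      rw [ev_insL, C.lsum_terms_id]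
      exact (altIdeal Φ X).add_mem (sg_ev_mem x _ _) ht

end Pool.Agent.Helper56Alt
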