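import Pool.Agent.Helper56_Alt.Data
import Pool.Agent.Helper56_Alt.Model

/-! The kernel computation. -/

namespace Pool.Agent.Helper56Alt

/-- Relabelling number m. -/
def sig (m n : Nat) : Nat := Nat.xor n (Nat.land (Nat.shiftRight m (Nat.div n 2)) 1)

/-- Sign of relabelling number m. -/
def sgm (m : Nat) : Bool := Nat.beq (Nat.mod (Nat.add (Nat.land m 1)
  (Nat.add (Nat.land (Nat.shiftRight m 1) 1) (Nat.land (Nat.shiftRight m 2) 1))) 2) 0

/-- Insert all blocks. -/
def insBlocks (m : Nat) : List (List (Bool × C)) → T → T
  | [], t => t
  | d :: ds, t =>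
    match insAll (sig m) (sgm m) d t with
    | .e => insBlocks m ds .e
    | .nd a b c e f => insBlocks m ds (.nd a b c e f)

/-- Insert all relabellings. -/
def insRel : Nat → T → T
  | 0, t => t
  | m + 1, t =>
    match insBlocks m dat t with
    | .e => insRel m .e
    | .nd a b c e f => insRel m (.nd a b c e f)

/-- The resulting tree. -/
def tree : T := insRel 8 .e

/-- The final test. -/
def fin (t : T) : Bool := t.div3 && (Int.emod t.val 3 != 0)

set_option maxRecDepth 1000000 in
theorem fin_tree : fin tree = true := by decide +kernel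

end Pool.Agent.Helper56Alt
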