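import Pool.Agent.Helper56_Alt.Basic

/-! The instances used by the certificate. -/

namespace Pool.Agent.Helper56Alt

/-- Instances. -/
def dat0 : List (Bool × C) := [
  (false, (.h1 (.l 4) (.l 2) (.n (.l 5) (.n (.n (.l 3) (.l 0)) (.l 1))))),
  (true, (.h1 (.l 4) (.l 2) (.n (.n (.l 3) (.l 0)) (.n (.l 1) (.l 5))))),
  (true, (.h1 (.l 4) (.l 2) (.n (.n (.l 0) (.n (.l 5) (.l 1))) (.l 3)))),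
  (true, (.h0 (.l 4) (.n (.l 5) (.l 2)) (.n (.n (.l 3) (.l 0)) (.l 1)))),
  (false, (.h1 (.l 4) (.n (.l 5) (.l 2)) (.n (.n (.l 3) (.l 0)) (.l 1)))),
  (true, (.h0 (.l 4) (.n (.l 2) (.l 5)) (.n (.n (.l 3) (.l 0)) (.l 1)))),
  (true, (.h0 (.l 4) (.n (.l 5) (.l 0)) (.n (.l 1) (.n (.l 2) (.l 3))))),
  (true, (.h0 (.l 4) (.n (.l 2) (.l 0)) (.n (.l 5) (.n (.l 3) (.l 1))))),
  (false, (.h0 (.l 4) (.n (.l 2) (.l 0)) (.n (.n (.l 3) (.l 5)) (.l 1)))),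
  (false, (.h0 (.l 4) (.n (.l 2) (.l 0)) (.n (.n (.l 1) (.l 3)) (.l 5)))),
  (true, (.h1 (.l 4) (.n (.l 0) (.l 2)) (.n (.l 3) (.n (.l 1) (.l 5))))),
  (false, (.h0 (.l 4) (.n (.l 0) (.l 2)) (.n (.n (.l 3) (.l 5)) (.l 1)))),
  (true, (.h1 (.l 4) (.n (.l 0) (.l 2)) (.n (.l 1) (.n (.l 3) (.l 5))))),
  (false, (.h0 (.l 4) (.n (.l 0) (.l 2)) (.n (.n (.l 5) (.l 1)) (.l 3)))),
  (true, (.h1 (.l 4) (.n (.l 0) (.l 2)) (.n (.n (.l 5) (.l 1)) (.l 3)))),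
  (true, (.h0 (.l 4) (.n (.l 0) (.l 2)) (.n (.n (.l 3) (.l 1)) (.l 5)))),
  (false, (.h0 (.l 4) (.n (.n (.l 2) (.l 5)) (.l 0)) (.n (.l 3) (.l 1)))),
  (false, (.h0 (.l 4) (.n (.n (.l 0) (.l 2)) (.l 5)) (.n (.l 1) (.l 3)))),
  (true, (.h1 (.l 4) (.n (.l 2) (.n (.l 0) (.l 3))) (.n (.l 5) (.l 1)))),
  (false, (.h1 (.l 4) (.n (.l 0) (.n (.l 2) (.l 3))) (.n (.l 5) (.l 1)))),
  (true, (.h0 (.l 4) (.n (.l 2) (.n (.l 0) (.n (.l 3) (.l 5)))) (.l 1))),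
  (true, (.h0 (.l 4) (.n (.n (.n (.l 2) (.l 5)) (.l 0)) (.l 3)) (.l 1))),
  (false, (.h0 (.l 4) (.n (.n (.n (.l 2) (.l 0)) (.l 5)) (.l 3)) (.l 1))),
  (true, (.h0 (.l 4) (.n (.l 0) (.n (.l 5) (.l 1))) (.n (.l 2) (.l 3)))),
  (true, (.h0 (.l 4) (.n (.n (.l 5) (.l 0)) (.l 1)) (.n (.l 2) (.l 3)))),
  (false, (.h0 (.l 4) (.n (.l 5) (.n (.n (.l 2) (.l 0)) (.l 1))) (.l 3))),
  (true, (.h0 (.l 4) (.n (.l 0) (.n (.l 2) (.n (.l 5) (.l 1)))) (.l 3))),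
  (false, (.h0 (.l 4) (.n (.n (.l 2) (.l 0)) (.n (.l 5) (.l 1))) (.l 3))),
  (true, (.h0 (.l 4) (.n (.n (.l 0) (.n (.l 5) (.l 1))) (.l 2)) (.l 3))),
  (true, (.h0 (.l 4) (.n (.n (.l 2) (.l 0)) (.n (.l 1) (.l 3))) (.l 5))),
  (true, (.h0 (.l 4) (.n (.n (.l 0) (.l 2)) (.n (.l 3) (.l 1))) (.l 5))),
  (false, (.h1 (.n (.l 4) (.l 5)) (.n (.l 0) (.l 2)) (.n (.l 1) (.l 3)))),
  (false, (.h1 (.l 2) (.l 4) (.n (.l 0) (.n (.l 5) (.n (.l 3) (.l 1)))))),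
  (false, (.h0 (.l 2) (.l 4) (.n (.l 0) (.n (.l 5) (.n (.l 1) (.l 3)))))),
  (false, (.h1 (.l 2) (.l 4) (.n (.n (.l 0) (.l 5)) (.n (.l 1) (.l 3))))),
  (false, (.h0 (.l 2) (.l 4) (.n (.n (.l 3) (.l 0)) (.n (.l 1) (.l 5))))),
  (true, (.h1 (.l 2) (.l 4) (.n (.n (.l 5) (.n (.l 3) (.l 0))) (.l 1)))),
  (false, (.h0 (.l 2) (.l 4) (.n (.n (.l 0) (.n (.l 3) (.l 5))) (.l 1)))),
  (true, (.h0 (.l 2) (.n (.l 4) (.l 3)) (.n (.l 0) (.n (.l 1) (.l 5))))),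
  (true, (.h1 (.l 2) (.l 0) (.n (.l 4) (.n (.l 5) (.n (.l 3) (.l 1)))))),
  (true, (.h1 (.l 2) (.l 0) (.n (.l 4) (.n (.n (.l 3) (.l 5)) (.l 1))))),
  (false, (.h1 (.l 2) (.l 0) (.n (.l 4) (.n (.l 1) (.n (.l 3) (.l 5)))))),
  (false, (.h1 (.l 2) (.l 0) (.n (.n (.l 4) (.l 1)) (.n (.l 5) (.l 3))))),
  (false, (.h1 (.l 2) (.l 0) (.n (.n (.l 4) (.l 1)) (.n (.l 3) (.l 5))))),
  (false, (.h1 (.l 2) (.n (.l 4) (.l 0)) (.n (.n (.l 3) (.l 5)) (.l 1)))),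
  (false, (.h0 (.l 2) (.n (.l 4) (.l 0)) (.n (.l 1) (.n (.l 3) (.l 5))))),
  (true, (.h0 (.l 2) (.n (.l 4) (.l 0)) (.n (.n (.l 5) (.l 1)) (.l 3)))),
  (true, (.h0 (.l 2) (.n (.l 0) (.l 4)) (.n (.n (.l 5) (.l 1)) (.l 3)))),
  (true, (.h0 (.l 2) (.n (.l 0) (.l 3)) (.n (.l 4) (.n (.l 1) (.l 5))))),
  (false, (.h1 (.l 2) (.n (.l 0) (.l 3)) (.n (.l 4) (.n (.l 1) (.l 5))))),
  (true, (.h0 (.l 2) (.n (.l 4) (.n (.l 3) (.l 0))) (.n (.l 1) (.l 5)))),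
  (false, (.h0 (.l 2) (.n (.n (.l 4) (.l 3)) (.l 0)) (.n (.l 1) (.l 5)))),
  (true, (.h0 (.l 2) (.n (.n (.l 3) (.l 4)) (.l 0)) (.n (.l 5) (.l 1)))),
  (true, (.h0 (.l 2) (.n (.l 0) (.n (.l 3) (.l 4))) (.n (.l 5) (.l 1)))),
  (true, (.h1 (.l 2) (.n (.l 0) (.n (.l 3) (.l 4))) (.n (.l 5) (.l 1)))),
  (true, (.h0 (.l 2) (.n (.n (.l 0) (.l 4)) (.l 3)) (.n (.l 5) (.l 1)))),
  (true, (.h0 (.l 2) (.n (.l 4) (.n (.n (.l 3) (.l 5)) (.l 0))) (.l 1))),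
  (false, (.h0 (.l 2) (.n (.n (.l 0) (.l 4)) (.n (.l 3) (.l 5))) (.l 1))),
  (false, (.h0 (.l 2) (.n (.n (.l 0) (.n (.l 3) (.l 4))) (.l 5)) (.l 1))),
  (true, (.h0 (.l 2) (.n (.l 0) (.n (.l 4) (.l 1))) (.n (.l 5) (.l 3)))),
  (false, (.h0 (.l 2) (.n (.l 0) (.n (.l 4) (.n (.l 3) (.l 1)))) (.l 5))),
  (false, (.h0 (.l 2) (.n (.n (.l 0) (.l 4)) (.n (.l 1) (.l 3))) (.l 5))),
  (true, (.h0 (.l 2) (.n (.n (.l 4) (.n (.l 3) (.l 0))) (.l 1)) (.l 5))),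
  (false, (.h1 (.n (.l 4) (.l 2)) (.l 5) (.n (.l 0) (.n (.l 1) (.l 3))))),
  (true, (.h1 (.n (.l 4) (.l 2)) (.l 3) (.n (.l 0) (.n (.l 1) (.l 5)))))]

/-- Instances. -/
def dat1 : List (Bool × C) := [
  (false, (.h1 (.n (.l 4) (.l 2)) (.l 0) (.n (.l 1) (.n (.l 5) (.l 3))))),
  (true, (.h1 (.n (.l 2) (.l 4)) (.l 0) (.n (.l 5) (.n (.l 3) (.l 1))))),
  (false, (.h1 (.n (.l 2) (.l 4)) (.l 0) (.n (.l 3) (.n (.l 5) (.l 1))))),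
  (true, (.h1 (.n (.l 2) (.l 4)) (.n (.l 0) (.l 5)) (.n (.l 3) (.l 1)))),
  (false, (.h1 (.n (.l 4) (.l 2)) (.n (.l 0) (.l 3)) (.n (.l 5) (.l 1)))),
  (false, (.h0 (.n (.l 2) (.l 4)) (.n (.l 5) (.n (.l 0) (.l 3))) (.l 1))),
  (false, (.h0 (.n (.l 2) (.l 4)) (.n (.l 3) (.n (.l 5) (.l 0))) (.l 1))),
  (true, (.h0 (.n (.l 2) (.l 4)) (.n (.n (.l 5) (.l 0)) (.l 3)) (.l 1))),
  (false, (.h1 (.n (.n (.l 2) (.l 4)) (.l 5)) (.l 0) (.n (.l 3) (.l 1)))),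
  (true, (.h0 (.l 0) (.l 4) (.n (.l 2) (.n (.l 3) (.n (.l 5) (.l 1)))))),
  (false, (.h0 (.l 0) (.l 4) (.n (.l 2) (.n (.l 1) (.n (.l 3) (.l 5)))))),
  (true, (.h0 (.l 0) (.l 4) (.n (.n (.l 2) (.l 3)) (.n (.l 5) (.l 1))))),
  (false, (.h0 (.l 0) (.l 4) (.n (.n (.l 5) (.l 1)) (.n (.l 2) (.l 3))))),
  (false, (.h1 (.l 0) (.l 4) (.n (.n (.l 2) (.l 1)) (.n (.l 5) (.l 3))))),
  (true, (.h1 (.l 0) (.l 4) (.n (.n (.l 1) (.l 2)) (.n (.l 5) (.l 3))))),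
  (false, (.h0 (.l 0) (.l 4) (.n (.n (.l 2) (.n (.l 5) (.l 1))) (.l 3)))),
  (false, (.h0 (.l 0) (.l 2) (.n (.l 4) (.n (.l 5) (.n (.l 3) (.l 1)))))),
  (false, (.h0 (.l 0) (.l 2) (.n (.l 4) (.n (.l 5) (.n (.l 1) (.l 3)))))),
  (false, (.h0 (.l 0) (.l 2) (.n (.l 4) (.n (.l 3) (.n (.l 5) (.l 1)))))),
  (true, (.h1 (.l 0) (.l 2) (.n (.l 4) (.n (.l 3) (.n (.l 5) (.l 1)))))),
  (false, (.h0 (.l 0) (.l 2) (.n (.l 4) (.n (.n (.l 1) (.l 3)) (.l 5))))),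
  (false, (.h1 (.l 0) (.l 2) (.n (.n (.l 4) (.l 3)) (.n (.l 1) (.l 5))))),
  (false, (.h0 (.l 0) (.l 2) (.n (.n (.n (.l 3) (.l 4)) (.l 5)) (.l 1)))),
  (true, (.h1 (.l 0) (.l 2) (.n (.n (.n (.l 3) (.l 4)) (.l 5)) (.l 1)))),
  (true, (.h1 (.l 0) (.l 2) (.n (.n (.l 4) (.l 1)) (.n (.l 3) (.l 5))))),
  (false, (.h1 (.l 0) (.l 2) (.n (.n (.n (.l 4) (.l 1)) (.l 5)) (.l 3)))),
  (true, (.h0 (.l 0) (.n (.l 4) (.l 2)) (.n (.l 5) (.n (.l 1) (.l 3))))),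
  (false, (.h1 (.l 0) (.n (.l 4) (.l 2)) (.n (.l 5) (.n (.l 1) (.l 3))))),
  (true, (.h0 (.l 0) (.n (.l 4) (.l 2)) (.n (.n (.l 5) (.l 1)) (.l 3)))),
  (true, (.h1 (.l 0) (.n (.l 4) (.l 2)) (.n (.n (.l 5) (.l 1)) (.l 3)))),
  (false, (.h0 (.l 0) (.n (.l 2) (.l 4)) (.n (.n (.l 5) (.l 1)) (.l 3)))),
  (false, (.h0 (.l 0) (.n (.n (.l 4) (.l 2)) (.l 5)) (.n (.l 1) (.l 3)))),
  (true, (.h0 (.l 0) (.n (.n (.l 2) (.l 4)) (.l 5)) (.n (.l 3) (.l 1)))),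
  (true, (.h0 (.l 0) (.n (.l 2) (.n (.l 4) (.l 3))) (.n (.l 1) (.l 5)))),
  (true, (.h0 (.l 0) (.n (.l 4) (.l 1)) (.n (.l 5) (.n (.l 2) (.l 3))))),
  (true, (.h0 (.l 0) (.n (.l 4) (.n (.l 5) (.l 1))) (.n (.l 2) (.l 3)))),
  (true, (.h0 (.l 0) (.n (.n (.l 4) (.l 1)) (.l 5)) (.n (.l 2) (.l 3)))),
  (false, (.h1 (.l 0) (.n (.l 1) (.l 2)) (.n (.n (.l 4) (.l 3)) (.l 5)))),
  (true, (.h1 (.l 0) (.n (.l 2) (.n (.l 4) (.l 1))) (.n (.l 5) (.l 3)))),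
  (false, (.h0 (.l 0) (.n (.n (.l 4) (.l 2)) (.n (.l 1) (.l 5))) (.l 3))),
  (true, (.h0 (.l 0) (.n (.n (.n (.l 4) (.l 2)) (.l 1)) (.l 5)) (.l 3))),
  (true, (.h0 (.l 0) (.n (.n (.l 4) (.l 2)) (.n (.l 1) (.l 3))) (.l 5))),
  (false, (.h0 (.l 0) (.n (.n (.l 2) (.l 1)) (.n (.l 4) (.l 3))) (.l 5))),
  (false, (.h0 (.l 0) (.n (.n (.l 1) (.l 2)) (.n (.l 4) (.l 3))) (.l 5))),
  (false, (.h1 (.n (.l 4) (.l 0)) (.l 2) (.n (.l 3) (.n (.l 5) (.l 1))))),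
  (true, (.h1 (.n (.l 0) (.l 4)) (.l 2) (.n (.l 3) (.n (.l 5) (.l 1))))),
  (false, (.h1 (.n (.l 0) (.l 4)) (.l 2) (.n (.n (.l 1) (.l 3)) (.l 5)))),
  (true, (.h0 (.n (.l 0) (.l 4)) (.n (.l 5) (.l 2)) (.n (.l 3) (.l 1)))),
  (false, (.h0 (.n (.l 0) (.l 4)) (.n (.l 2) (.l 5)) (.n (.l 1) (.l 3)))),
  (true, (.h1 (.n (.l 0) (.l 4)) (.n (.l 2) (.l 3)) (.n (.l 5) (.l 1)))),
  (true, (.h0 (.n (.l 0) (.l 4)) (.n (.l 5) (.l 1)) (.n (.l 2) (.l 3)))),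
  (true, (.h0 (.n (.l 0) (.l 4)) (.n (.l 2) (.l 1)) (.n (.l 5) (.l 3)))),
  (true, (.h1 (.n (.l 0) (.l 4)) (.n (.l 2) (.l 1)) (.n (.l 5) (.l 3)))),
  (false, (.h1 (.n (.l 4) (.n (.l 5) (.l 0))) (.l 2) (.n (.l 1) (.l 3)))),
  (false, (.h1 (.n (.l 2) (.l 0)) (.l 4) (.n (.l 5) (.n (.l 3) (.l 1))))),
  (false, (.h1 (.n (.l 2) (.l 0)) (.l 4) (.n (.l 5) (.n (.l 1) (.l 3))))),
  (true, (.h1 (.n (.l 2) (.l 0)) (.l 4) (.n (.n (.l 1) (.l 3)) (.l 5)))),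
  (false, (.h1 (.n (.l 0) (.l 2)) (.l 4) (.n (.n (.l 5) (.l 3)) (.l 1)))),
  (false, (.h1 (.n (.l 0) (.l 2)) (.l 4) (.n (.l 1) (.n (.l 5) (.l 3))))),
  (false, (.h1 (.n (.l 0) (.l 2)) (.l 4) (.n (.n (.l 3) (.l 1)) (.l 5)))),
  (false, (.h0 (.n (.l 0) (.l 2)) (.n (.l 4) (.l 5)) (.n (.l 1) (.l 3)))),
  (true, (.h1 (.n (.l 0) (.l 2)) (.l 3) (.n (.l 4) (.n (.l 1) (.l 5))))),
  (false, (.h0 (.n (.l 2) (.l 0)) (.n (.l 4) (.n (.l 3) (.l 5))) (.l 1))),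
  (true, (.h0 (.n (.l 2) (.l 0)) (.n (.n (.l 4) (.l 3)) (.l 5)) (.l 1))),
  (false, (.h0 (.n (.l 2) (.l 0)) (.n (.n (.l 3) (.l 4)) (.l 5)) (.l 1)))]

/-- Instances. -/
def dat2 : List (Bool × C) := [
  (false, (.h1 (.n (.l 2) (.l 0)) (.n (.l 4) (.l 1)) (.n (.l 5) (.l 3)))),
  (true, (.h1 (.n (.l 2) (.l 0)) (.n (.l 1) (.l 4)) (.n (.l 5) (.l 3)))),
  (false, (.h1 (.n (.l 0) (.l 2)) (.n (.l 4) (.l 1)) (.n (.l 5) (.l 3)))),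
  (true, (.h0 (.n (.l 0) (.l 2)) (.n (.l 4) (.n (.l 5) (.l 1))) (.l 3))),
  (true, (.h0 (.n (.l 0) (.l 2)) (.n (.l 3) (.l 1)) (.n (.l 4) (.l 5)))),
  (false, (.h0 (.n (.l 2) (.l 0)) (.n (.l 4) (.n (.l 1) (.l 3))) (.l 5))),
  (true, (.h0 (.n (.l 0) (.l 2)) (.n (.n (.l 4) (.l 3)) (.l 1)) (.l 5))),
  (false, (.h0 (.n (.l 0) (.l 2)) (.n (.l 1) (.n (.l 4) (.l 3))) (.l 5))),
  (true, (.h0 (.n (.l 0) (.l 2)) (.n (.n (.l 3) (.l 1)) (.l 4)) (.l 5))),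
  (true, (.h1 (.n (.l 4) (.n (.l 2) (.l 0))) (.l 5) (.n (.l 3) (.l 1)))),
  (false, (.h1 (.n (.n (.l 4) (.l 2)) (.l 0)) (.l 5) (.n (.l 1) (.l 3)))),
  (false, (.h1 (.n (.n (.l 4) (.l 2)) (.l 0)) (.l 3) (.n (.l 1) (.l 5)))),
  (true, (.h1 (.n (.n (.l 4) (.l 0)) (.l 2)) (.l 3) (.n (.l 5) (.l 1)))),
  (false, (.h1 (.n (.l 4) (.n (.l 2) (.l 0))) (.l 1) (.n (.l 3) (.l 5)))),
  (false, (.h1 (.n (.n (.l 2) (.l 0)) (.l 4)) (.l 1) (.n (.l 3) (.l 5)))),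
  (false, (.h1 (.n (.n (.l 0) (.l 2)) (.l 4)) (.l 1) (.n (.l 5) (.l 3)))),
  (false, (.h1 (.n (.n (.l 4) (.l 2)) (.n (.l 0) (.l 5))) (.l 1) (.l 3))),
  (false, (.h1 (.n (.n (.l 0) (.l 4)) (.n (.l 2) (.l 5))) (.l 1) (.l 3))),
  (true, (.h1 (.n (.n (.l 4) (.n (.l 2) (.l 0))) (.l 5)) (.l 1) (.l 3))),
  (false, (.h1 (.n (.n (.n (.l 2) (.l 4)) (.l 0)) (.l 5)) (.l 1) (.l 3))),
  (false, (.h1 (.n (.l 4) (.n (.n (.l 2) (.l 0)) (.l 3))) (.l 1) (.l 5))),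
  (true, (.h1 (.n (.n (.l 4) (.l 2)) (.n (.l 0) (.l 3))) (.l 1) (.l 5))),
  (true, (.h1 (.n (.n (.l 2) (.l 0)) (.n (.l 4) (.l 3))) (.l 1) (.l 5))),
  (false, (.h0 (.n (.l 0) (.n (.l 4) (.l 1))) (.n (.l 5) (.l 2)) (.l 3))),
  (false, (.h0 (.n (.l 0) (.n (.l 4) (.l 1))) (.n (.l 2) (.l 5)) (.l 3))),
  (false, (.h0 (.n (.l 0) (.n (.l 1) (.l 2))) (.n (.l 4) (.l 3)) (.l 5))),
  (false, (.h1 (.n (.l 0) (.n (.l 4) (.n (.l 2) (.l 1)))) (.l 3) (.l 5))),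
  (false, (.h1 (.n (.n (.l 0) (.l 4)) (.n (.l 1) (.l 2))) (.l 3) (.l 5))),
  (false, (.h1 (.n (.n (.n (.l 2) (.l 0)) (.l 4)) (.l 1)) (.l 3) (.l 5))),
  (false, (.L (.l 4) (.h0 (.l 5) (.n (.l 2) (.l 0)) (.n (.l 3) (.l 1))))),
  (false, (.L (.l 4) (.h1 (.l 5) (.n (.l 2) (.l 0)) (.n (.l 3) (.l 1))))),
  (true, (.L (.l 4) (.h1 (.l 2) (.l 5) (.n (.n (.l 3) (.l 0)) (.l 1))))),
  (false, (.L (.l 4) (.h1 (.l 2) (.l 0) (.n (.n (.l 3) (.l 5)) (.l 1))))),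
  (false, (.L (.l 4) (.h1 (.l 2) (.l 0) (.n (.l 1) (.n (.l 3) (.l 5)))))),
  (true, (.L (.l 4) (.h0 (.l 2) (.n (.l 5) (.l 0)) (.n (.l 1) (.l 3))))),
  (true, (.L (.l 4) (.h1 (.l 2) (.n (.l 0) (.l 3)) (.n (.l 5) (.l 1))))),
  (false, (.L (.l 4) (.h0 (.l 2) (.n (.n (.l 3) (.l 5)) (.l 0)) (.l 1)))),
  (false, (.L (.l 4) (.h0 (.l 2) (.n (.n (.l 3) (.l 0)) (.l 1)) (.l 5)))),
  (false, (.L (.l 4) (.h1 (.l 0) (.l 2) (.n (.l 3) (.n (.l 5) (.l 1)))))),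
  (true, (.L (.l 4) (.h0 (.l 0) (.l 2) (.n (.l 1) (.n (.l 3) (.l 5)))))),
  (false, (.L (.l 4) (.h1 (.l 0) (.n (.l 2) (.l 3)) (.n (.l 5) (.l 1))))),
  (false, (.L (.l 4) (.h0 (.l 0) (.n (.l 5) (.l 1)) (.n (.l 2) (.l 3))))),
  (true, (.L (.l 4) (.h0 (.n (.l 0) (.l 2)) (.n (.l 3) (.l 1)) (.l 5)))),
  (false, (.L (.l 4) (.h1 (.n (.n (.l 2) (.l 0)) (.l 5)) (.l 1) (.l 3)))),
  (false, (.L (.l 4) (.h1 (.n (.n (.l 2) (.l 0)) (.l 1)) (.l 3) (.l 5)))),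
  (true, (.L (.l 4) (.L (.l 2) (.h1 (.l 0) (.l 3) (.n (.l 5) (.l 1)))))),
  (true, (.L (.l 4) (.L (.l 2) (.L (.l 0) (.h1 (.l 5) (.l 1) (.l 3)))))),
  (false, (.L (.l 4) (.L (.l 2) (.L (.l 0) (.h0 (.l 3) (.l 5) (.l 1)))))),
  (false, (.L (.l 4) (.L (.n (.l 0) (.l 2)) (.h1 (.l 3) (.l 1) (.l 5))))),
  (false, (.L (.l 4) (.R (.h0 (.l 0) (.l 2) (.l 5)) (.n (.l 1) (.l 3))))),
  (true, (.L (.l 4) (.R (.h1 (.n (.l 2) (.l 0)) (.l 1) (.l 5)) (.l 3)))),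
  (true, (.L (.l 2) (.h1 (.l 4) (.l 0) (.n (.l 5) (.n (.l 3) (.l 1)))))),
  (false, (.L (.l 2) (.h1 (.l 4) (.n (.l 0) (.l 5)) (.n (.l 3) (.l 1))))),
  (true, (.L (.l 2) (.h0 (.l 4) (.n (.l 0) (.n (.l 3) (.l 5))) (.l 1)))),
  (true, (.L (.l 2) (.h0 (.l 4) (.n (.n (.l 0) (.l 5)) (.l 3)) (.l 1)))),
  (true, (.L (.l 2) (.h0 (.l 4) (.n (.n (.l 0) (.l 5)) (.l 1)) (.l 3)))),
  (false, (.L (.l 2) (.h1 (.n (.l 4) (.l 3)) (.l 0) (.n (.l 1) (.l 5))))),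
  (true, (.L (.l 2) (.h0 (.l 0) (.l 4) (.n (.l 5) (.n (.l 1) (.l 3)))))),
  (true, (.L (.l 2) (.h1 (.l 0) (.n (.l 3) (.l 4)) (.n (.l 5) (.l 1))))),
  (true, (.L (.l 2) (.h0 (.l 0) (.n (.l 4) (.l 1)) (.n (.l 5) (.l 3))))),
  (true, (.L (.l 2) (.h0 (.l 0) (.n (.l 4) (.l 1)) (.n (.l 3) (.l 5))))),
  (true, (.L (.l 2) (.h0 (.n (.l 0) (.l 4)) (.n (.l 5) (.l 3)) (.l 1)))),
  (true, (.L (.l 2) (.h1 (.n (.l 4) (.l 0)) (.l 1) (.n (.l 5) (.l 3))))),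
  (true, (.L (.l 2) (.h1 (.n (.l 4) (.l 0)) (.l 1) (.n (.l 3) (.l 5))))),
  (false, (.L (.l 2) (.h1 (.n (.l 0) (.l 4)) (.l 1) (.n (.l 5) (.l 3)))))]

/-- Instances. -/
def dat3 : List (Bool × C) := [
  (false, (.L (.l 2) (.h0 (.n (.l 0) (.l 4)) (.n (.l 1) (.l 5)) (.l 3)))),
  (false, (.L (.l 2) (.h1 (.n (.l 4) (.n (.l 0) (.l 5))) (.l 1) (.l 3)))),
  (true, (.L (.l 2) (.L (.l 4) (.h1 (.n (.l 0) (.l 5)) (.l 1) (.l 3))))),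
  (true, (.L (.l 2) (.L (.l 0) (.h0 (.l 4) (.n (.l 3) (.l 5)) (.l 1))))),
  (false, (.L (.l 2) (.L (.l 0) (.h1 (.l 4) (.l 1) (.n (.l 3) (.l 5)))))),
  (true, (.L (.l 2) (.L (.l 0) (.L (.l 4) (.h1 (.l 3) (.l 1) (.l 5)))))),
  (false, (.L (.l 2) (.L (.l 0) (.L (.l 4) (.h0 (.l 1) (.l 3) (.l 5)))))),
  (true, (.L (.l 2) (.L (.n (.l 4) (.l 0)) (.h1 (.l 5) (.l 1) (.l 3))))),
  (true, (.L (.l 2) (.L (.n (.l 0) (.l 4)) (.h0 (.l 1) (.l 5) (.l 3))))),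
  (true, (.L (.l 2) (.R (.h0 (.l 4) (.n (.l 0) (.l 5)) (.l 3)) (.l 1)))),
  (true, (.L (.l 2) (.R (.h1 (.n (.l 0) (.l 4)) (.l 3) (.l 5)) (.l 1)))),
  (true, (.L (.l 2) (.R (.h0 (.l 4) (.n (.l 0) (.l 5)) (.l 1)) (.l 3)))),
  (true, (.L (.l 2) (.R (.h1 (.n (.l 0) (.l 4)) (.l 1) (.l 5)) (.l 3)))),
  (false, (.L (.n (.l 2) (.l 4)) (.h1 (.l 5) (.l 0) (.n (.l 3) (.l 1))))),
  (true, (.L (.n (.l 4) (.l 2)) (.h1 (.l 5) (.l 0) (.n (.l 1) (.l 3))))),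
  (true, (.L (.n (.l 4) (.l 2)) (.h0 (.l 5) (.n (.l 0) (.l 3)) (.l 1)))),
  (true, (.L (.n (.l 2) (.l 4)) (.h0 (.l 0) (.l 5) (.n (.l 3) (.l 1))))),
  (false, (.L (.n (.l 2) (.l 4)) (.h1 (.l 0) (.l 5) (.n (.l 1) (.l 3))))),
  (true, (.L (.n (.l 2) (.l 4)) (.h1 (.l 0) (.l 3) (.n (.l 5) (.l 1))))),
  (true, (.L (.n (.l 4) (.l 2)) (.h0 (.l 0) (.n (.l 1) (.l 5)) (.l 3)))),
  (true, (.L (.n (.l 2) (.l 4)) (.h0 (.l 0) (.n (.l 1) (.l 3)) (.l 5)))),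
  (true, (.L (.n (.l 4) (.l 2)) (.h1 (.n (.l 0) (.l 5)) (.l 1) (.l 3)))),
  (true, (.L (.n (.l 2) (.l 4)) (.h1 (.n (.l 0) (.l 3)) (.l 1) (.l 5)))),
  (true, (.L (.n (.l 4) (.l 2)) (.L (.l 0) (.h0 (.l 1) (.l 5) (.l 3))))),
  (true, (.L (.n (.l 2) (.l 4)) (.R (.h0 (.l 0) (.l 5) (.l 3)) (.l 1)))),
  (false, (.L (.n (.l 4) (.l 2)) (.R (.h1 (.l 0) (.l 3) (.l 5)) (.l 1)))),
  (false, (.L (.n (.l 2) (.l 4)) (.R (.h1 (.l 0) (.l 3) (.l 5)) (.l 1)))),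
  (false, (.L (.l 0) (.h1 (.l 4) (.l 2) (.n (.l 5) (.n (.l 3) (.l 1)))))),
  (true, (.L (.l 0) (.h1 (.l 4) (.l 2) (.n (.l 3) (.n (.l 5) (.l 1)))))),
  (true, (.L (.l 0) (.h1 (.l 4) (.l 2) (.n (.n (.l 5) (.l 1)) (.l 3))))),
  (true, (.L (.l 0) (.h0 (.l 4) (.n (.l 5) (.l 2)) (.n (.l 3) (.l 1))))),
  (true, (.L (.l 0) (.h0 (.l 4) (.n (.l 5) (.l 1)) (.n (.l 2) (.l 3))))),
  (true, (.L (.l 0) (.h1 (.l 4) (.n (.l 2) (.l 1)) (.n (.l 5) (.l 3))))),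
  (false, (.L (.l 0) (.h0 (.l 4) (.n (.l 1) (.l 2)) (.n (.l 5) (.l 3))))),
  (false, (.L (.l 0) (.h0 (.l 4) (.n (.l 5) (.n (.l 2) (.l 1))) (.l 3)))),
  (true, (.L (.l 0) (.h0 (.l 4) (.n (.n (.l 5) (.l 1)) (.l 2)) (.l 3)))),
  (true, (.L (.l 0) (.h0 (.l 2) (.l 4) (.n (.l 5) (.n (.l 3) (.l 1)))))),
  (true, (.L (.l 0) (.h0 (.l 2) (.l 4) (.n (.l 1) (.n (.l 3) (.l 5)))))),
  (true, (.L (.l 0) (.h0 (.l 2) (.l 4) (.n (.n (.l 5) (.l 1)) (.l 3))))),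
  (false, (.L (.l 0) (.h1 (.l 2) (.l 4) (.n (.n (.l 1) (.l 5)) (.l 3))))),
  (true, (.L (.l 0) (.h1 (.l 2) (.l 4) (.n (.n (.l 3) (.l 1)) (.l 5))))),
  (false, (.L (.l 0) (.h0 (.l 2) (.n (.l 3) (.l 4)) (.n (.l 5) (.l 1))))),
  (true, (.L (.l 0) (.h1 (.l 2) (.n (.l 3) (.l 4)) (.n (.l 5) (.l 1))))),
  (false, (.L (.l 0) (.h0 (.l 2) (.n (.l 3) (.l 4)) (.n (.l 1) (.l 5))))),
  (true, (.L (.l 0) (.h0 (.l 2) (.n (.n (.l 4) (.l 3)) (.l 5)) (.l 1)))),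
  (true, (.L (.l 0) (.h1 (.l 2) (.n (.l 4) (.l 1)) (.n (.l 5) (.l 3))))),
  (false, (.L (.l 0) (.h1 (.l 2) (.n (.l 1) (.l 4)) (.n (.l 3) (.l 5))))),
  (true, (.L (.l 0) (.h0 (.l 2) (.n (.n (.l 4) (.l 1)) (.l 5)) (.l 3)))),
  (true, (.L (.l 0) (.h0 (.l 2) (.n (.n (.l 3) (.l 1)) (.l 4)) (.l 5)))),
  (true, (.L (.l 0) (.h1 (.n (.l 2) (.l 4)) (.l 5) (.n (.l 3) (.l 1))))),
  (false, (.L (.l 0) (.h1 (.n (.l 2) (.l 4)) (.l 3) (.n (.l 5) (.l 1))))),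
  (false, (.L (.l 0) (.h1 (.n (.l 2) (.l 4)) (.l 3) (.n (.l 1) (.l 5))))),
  (false, (.L (.l 0) (.h0 (.n (.l 4) (.l 2)) (.n (.l 5) (.l 3)) (.l 1)))),
  (false, (.L (.l 0) (.h1 (.n (.l 2) (.n (.l 4) (.l 3))) (.l 1) (.l 5)))),
  (true, (.L (.l 0) (.h0 (.l 1) (.n (.l 2) (.l 4)) (.n (.l 3) (.l 5))))),
  (true, (.L (.l 0) (.h1 (.l 1) (.n (.l 2) (.l 4)) (.n (.l 3) (.l 5))))),
  (true, (.L (.l 0) (.h1 (.n (.l 1) (.l 2)) (.l 4) (.n (.l 5) (.l 3))))),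
  (false, (.L (.l 0) (.h0 (.n (.l 1) (.l 2)) (.n (.l 4) (.l 3)) (.l 5)))),
  (true, (.L (.l 0) (.L (.l 4) (.h1 (.l 2) (.l 3) (.n (.l 5) (.l 1)))))),
  (false, (.L (.l 0) (.L (.l 2) (.h1 (.l 4) (.l 3) (.n (.l 1) (.l 5)))))),
  (false, (.L (.l 0) (.L (.l 2) (.h0 (.l 4) (.n (.l 5) (.l 3)) (.l 1))))),
  (true, (.L (.l 0) (.L (.l 2) (.h1 (.l 4) (.l 1) (.n (.l 5) (.l 3)))))),
  (true, (.L (.l 0) (.L (.l 2) (.h0 (.l 4) (.n (.l 1) (.l 5)) (.l 3))))),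
  (true, (.L (.l 0) (.L (.l 2) (.h1 (.n (.l 1) (.l 4)) (.l 3) (.l 5))))),
  (true, (.L (.l 0) (.L (.l 2) (.L (.l 4) (.h0 (.l 1) (.l 5) (.l 3))))))]

/-- Instances. -/
def dat4 : List (Bool × C) := [
  (true, (.L (.l 0) (.L (.l 2) (.L (.l 4) (.h0 (.l 1) (.l 3) (.l 5)))))),
  (true, (.L (.l 0) (.L (.l 2) (.L (.l 4) (.h1 (.l 1) (.l 3) (.l 5)))))),
  (true, (.L (.l 0) (.L (.n (.l 4) (.l 2)) (.h0 (.l 3) (.l 5) (.l 1))))),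
  (false, (.L (.l 0) (.L (.n (.l 4) (.l 2)) (.h1 (.l 3) (.l 1) (.l 5))))),
  (true, (.L (.l 0) (.L (.n (.l 4) (.l 2)) (.h0 (.l 1) (.l 3) (.l 5))))),
  (true, (.L (.l 0) (.R (.h0 (.l 2) (.n (.l 4) (.l 3)) (.l 5)) (.l 1)))),
  (true, (.L (.l 0) (.R (.h1 (.n (.l 4) (.l 2)) (.l 3) (.l 5)) (.l 1)))),
  (false, (.L (.l 0) (.R (.h1 (.l 2) (.l 1) (.l 4)) (.n (.l 3) (.l 5))))),
  (true, (.L (.l 0) (.R (.h0 (.l 2) (.n (.l 4) (.l 1)) (.l 5)) (.l 3)))),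
  (false, (.L (.l 0) (.R (.h1 (.n (.l 2) (.l 4)) (.l 1) (.l 5)) (.l 3)))),
  (true, (.L (.l 0) (.R (.R (.h0 (.l 2) (.l 4) (.l 1)) (.l 5)) (.l 3)))),
  (true, (.L (.l 0) (.R (.h1 (.l 4) (.l 2) (.n (.l 3) (.l 1))) (.l 5)))),
  (true, (.L (.l 0) (.R (.h0 (.l 4) (.n (.l 2) (.l 1)) (.l 3)) (.l 5)))),
  (false, (.L (.l 0) (.R (.h0 (.l 2) (.l 4) (.n (.l 3) (.l 1))) (.l 5)))),
  (true, (.L (.l 0) (.R (.h1 (.l 2) (.l 1) (.n (.l 4) (.l 3))) (.l 5)))),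
  (true, (.L (.l 0) (.R (.L (.l 2) (.h1 (.l 4) (.l 1) (.l 3))) (.l 5)))),
  (false, (.L (.l 0) (.R (.L (.l 2) (.h0 (.l 1) (.l 4) (.l 3))) (.l 5)))),
  (false, (.L (.n (.l 0) (.l 4)) (.h1 (.l 2) (.l 5) (.n (.l 1) (.l 3))))),
  (false, (.L (.n (.l 4) (.l 0)) (.h1 (.l 2) (.l 3) (.n (.l 5) (.l 1))))),
  (true, (.L (.n (.l 0) (.l 4)) (.h0 (.l 2) (.n (.l 1) (.l 3)) (.l 5)))),
  (true, (.L (.n (.l 4) (.l 0)) (.h0 (.l 1) (.l 5) (.n (.l 2) (.l 3))))),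
  (true, (.L (.n (.l 0) (.l 4)) (.h1 (.n (.l 1) (.l 2)) (.l 3) (.l 5)))),
  (true, (.L (.n (.l 0) (.l 4)) (.L (.l 2) (.h0 (.l 1) (.l 5) (.l 3))))),
  (false, (.L (.n (.l 0) (.l 4)) (.L (.l 2) (.h1 (.l 1) (.l 3) (.l 5))))),
  (false, (.L (.n (.l 0) (.l 2)) (.h1 (.l 4) (.l 5) (.n (.l 1) (.l 3))))),
  (false, (.L (.n (.l 2) (.l 0)) (.h1 (.l 4) (.l 3) (.n (.l 5) (.l 1))))),
  (true, (.L (.n (.l 0) (.l 2)) (.h1 (.l 4) (.l 3) (.n (.l 5) (.l 1))))),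
  (true, (.L (.n (.l 0) (.l 2)) (.h1 (.l 4) (.l 3) (.n (.l 1) (.l 5))))),
  (false, (.L (.n (.l 2) (.l 0)) (.h1 (.l 4) (.l 1) (.n (.l 3) (.l 5))))),
  (true, (.L (.n (.l 2) (.l 0)) (.h0 (.l 4) (.n (.l 5) (.l 1)) (.l 3)))),
  (false, (.L (.n (.l 0) (.l 2)) (.h0 (.l 4) (.n (.l 3) (.l 1)) (.l 5)))),
  (false, (.L (.n (.l 2) (.l 0)) (.h0 (.l 4) (.n (.l 1) (.l 3)) (.l 5)))),
  (true, (.L (.n (.l 2) (.l 0)) (.h1 (.n (.l 4) (.l 3)) (.l 1) (.l 5)))),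
  (true, (.L (.n (.l 2) (.l 0)) (.h1 (.n (.l 4) (.l 1)) (.l 3) (.l 5)))),
  (true, (.L (.n (.l 0) (.l 2)) (.h1 (.n (.l 4) (.l 1)) (.l 3) (.l 5)))),
  (false, (.L (.n (.l 0) (.l 2)) (.L (.l 4) (.h1 (.l 5) (.l 1) (.l 3))))),
  (false, (.L (.n (.l 0) (.l 2)) (.L (.l 4) (.h1 (.l 3) (.l 1) (.l 5))))),
  (true, (.L (.n (.l 0) (.l 2)) (.L (.l 4) (.h0 (.l 1) (.l 5) (.l 3))))),
  (false, (.L (.n (.l 2) (.l 0)) (.R (.h1 (.l 4) (.l 1) (.l 3)) (.l 5)))),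
  (false, (.L (.n (.l 0) (.l 2)) (.R (.h1 (.l 4) (.l 1) (.l 3)) (.l 5)))),
  (true, (.R (.h1 (.l 2) (.l 0) (.l 4)) (.n (.n (.l 5) (.l 1)) (.l 3)))),
  (true, (.R (.h0 (.l 0) (.l 4) (.l 2)) (.n (.n (.l 1) (.l 3)) (.l 5)))),
  (true, (.R (.h1 (.l 0) (.l 2) (.l 4)) (.n (.l 3) (.n (.l 5) (.l 1))))),
  (false, (.R (.h1 (.l 0) (.l 2) (.l 4)) (.n (.n (.l 5) (.l 1)) (.l 3)))),
  (false, (.L (.n (.n (.l 0) (.l 2)) (.l 4)) (.h1 (.l 5) (.l 1) (.l 3)))),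
  (true, (.L (.n (.n (.l 0) (.l 2)) (.l 4)) (.h0 (.l 3) (.l 5) (.l 1)))),
  (true, (.L (.n (.n (.l 4) (.l 0)) (.l 2)) (.h1 (.l 3) (.l 1) (.l 5)))),
  (false, (.L (.n (.n (.l 4) (.l 2)) (.l 0)) (.h0 (.l 1) (.l 5) (.l 3)))),
  (false, (.L (.n (.n (.l 2) (.l 0)) (.l 4)) (.h0 (.l 1) (.l 5) (.l 3)))),
  (true, (.L (.n (.l 4) (.n (.l 2) (.l 0))) (.h0 (.l 1) (.l 3) (.l 5)))),
  (true, (.L (.n (.l 4) (.n (.l 0) (.l 2))) (.h0 (.l 1) (.l 3) (.l 5)))),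
  (false, (.L (.n (.n (.l 4) (.l 0)) (.l 2)) (.h0 (.l 1) (.l 3) (.l 5)))),
  (true, (.L (.n (.n (.l 2) (.l 0)) (.l 4)) (.h1 (.l 1) (.l 3) (.l 5)))),
  (true, (.R (.h0 (.l 4) (.n (.l 5) (.l 0)) (.l 2)) (.n (.l 1) (.l 3)))),
  (false, (.R (.h0 (.l 4) (.n (.l 0) (.l 2)) (.l 5)) (.n (.l 1) (.l 3)))),
  (true, (.R (.h0 (.l 2) (.l 4) (.n (.l 0) (.l 5))) (.n (.l 1) (.l 3)))),
  (true, (.R (.h1 (.n (.l 4) (.l 2)) (.l 0) (.l 5)) (.n (.l 1) (.l 3)))),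
  (true, (.R (.h0 (.l 0) (.l 4) (.n (.l 2) (.l 5))) (.n (.l 1) (.l 3)))),
  (false, (.R (.h1 (.l 0) (.l 4) (.n (.l 2) (.l 5))) (.n (.l 1) (.l 3)))),
  (true, (.R (.h0 (.l 0) (.n (.l 2) (.l 4)) (.l 5)) (.n (.l 3) (.l 1)))),
  (false, (.R (.h0 (.l 0) (.n (.l 2) (.l 4)) (.l 5)) (.n (.l 1) (.l 3)))),
  (true, (.R (.h1 (.n (.l 4) (.l 0)) (.l 2) (.l 5)) (.n (.l 1) (.l 3)))),
  (false, (.R (.R (.h1 (.l 4) (.l 0) (.l 2)) (.l 5)) (.n (.l 1) (.l 3)))),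
  (false, (.R (.h1 (.l 4) (.l 2) (.n (.l 3) (.l 0))) (.n (.l 1) (.l 5)))),
  (false, (.R (.h1 (.l 4) (.l 2) (.n (.l 0) (.l 3))) (.n (.l 5) (.l 1))))]

/-- Instances. -/
def dat5 : List (Bool × C) := [
  (true, (.R (.h0 (.l 4) (.n (.l 0) (.l 2)) (.l 3)) (.n (.l 5) (.l 1)))),
  (true, (.R (.h0 (.l 2) (.l 4) (.n (.l 3) (.l 0))) (.n (.l 1) (.l 5)))),
  (false, (.R (.h1 (.l 2) (.l 0) (.n (.l 4) (.l 3))) (.n (.l 1) (.l 5)))),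
  (true, (.R (.h0 (.l 2) (.n (.l 0) (.l 4)) (.l 3)) (.n (.l 5) (.l 1)))),
  (true, (.R (.h0 (.l 0) (.l 2) (.n (.l 4) (.l 3))) (.n (.l 1) (.l 5)))),
  (false, (.R (.L (.l 4) (.h0 (.l 0) (.l 2) (.l 3))) (.n (.l 5) (.l 1)))),
  (false, (.R (.R (.h0 (.l 0) (.l 4) (.l 2)) (.l 3)) (.n (.l 5) (.l 1)))),
  (true, (.R (.R (.h0 (.l 0) (.l 2) (.l 4)) (.l 3)) (.n (.l 5) (.l 1)))),
  (true, (.R (.R (.h1 (.l 0) (.l 2) (.l 4)) (.l 3)) (.n (.l 5) (.l 1)))),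
  (false, (.R (.h1 (.l 4) (.l 2) (.n (.l 5) (.n (.l 3) (.l 0)))) (.l 1))),
  (true, (.R (.h1 (.l 4) (.l 2) (.n (.l 0) (.n (.l 5) (.l 3)))) (.l 1))),
  (false, (.R (.h0 (.l 4) (.n (.l 2) (.l 5)) (.n (.l 3) (.l 0))) (.l 1))),
  (true, (.R (.h0 (.l 4) (.n (.l 2) (.l 5)) (.n (.l 0) (.l 3))) (.l 1))),
  (true, (.R (.h0 (.l 4) (.n (.l 2) (.l 0)) (.n (.l 5) (.l 3))) (.l 1))),
  (true, (.R (.h0 (.l 4) (.n (.l 2) (.l 0)) (.n (.l 3) (.l 5))) (.l 1))),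
  (false, (.R (.h0 (.l 4) (.n (.l 5) (.n (.l 2) (.l 0))) (.l 3)) (.l 1))),
  (false, (.R (.h0 (.l 2) (.l 4) (.n (.l 5) (.n (.l 3) (.l 0)))) (.l 1))),
  (true, (.R (.h1 (.l 2) (.l 4) (.n (.l 0) (.n (.l 3) (.l 5)))) (.l 1))),
  (true, (.R (.h0 (.l 2) (.n (.l 4) (.n (.l 3) (.l 5))) (.l 0)) (.l 1))),
  (false, (.R (.h1 (.l 2) (.l 0) (.n (.l 4) (.n (.l 3) (.l 5)))) (.l 1))),
  (true, (.R (.h0 (.l 2) (.n (.l 4) (.l 0)) (.n (.l 5) (.l 3))) (.l 1))),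
  (true, (.R (.h0 (.l 2) (.n (.l 4) (.l 0)) (.n (.l 3) (.l 5))) (.l 1))),
  (false, (.R (.h0 (.l 2) (.n (.l 0) (.n (.l 3) (.l 4))) (.l 5)) (.l 1))),
  (true, (.R (.h1 (.n (.l 4) (.l 2)) (.l 5) (.n (.l 3) (.l 0))) (.l 1))),
  (false, (.R (.h1 (.n (.l 4) (.l 2)) (.l 3) (.n (.l 0) (.l 5))) (.l 1))),
  (true, (.R (.h0 (.n (.l 2) (.l 4)) (.n (.l 5) (.l 0)) (.l 3)) (.l 1))),
  (true, (.R (.h1 (.n (.l 4) (.n (.l 2) (.l 5))) (.l 0) (.l 3)) (.l 1))),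
  (true, (.R (.h0 (.l 0) (.l 4) (.n (.n (.l 5) (.l 2)) (.l 3))) (.l 1))),
  (false, (.R (.h1 (.l 0) (.l 4) (.n (.n (.l 5) (.l 2)) (.l 3))) (.l 1))),
  (true, (.R (.h0 (.l 0) (.l 2) (.n (.n (.l 3) (.l 4)) (.l 5))) (.l 1))),
  (false, (.R (.h1 (.l 0) (.l 2) (.n (.n (.l 3) (.l 4)) (.l 5))) (.l 1))),
  (true, (.R (.h0 (.l 0) (.n (.l 2) (.l 4)) (.n (.l 3) (.l 5))) (.l 1))),
  (true, (.R (.h1 (.l 0) (.n (.l 2) (.l 4)) (.n (.l 3) (.l 5))) (.l 1))),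
  (false, (.R (.h0 (.l 0) (.n (.n (.l 2) (.l 4)) (.l 5)) (.l 3)) (.l 1))),
  (false, (.R (.h0 (.l 0) (.n (.n (.l 4) (.l 2)) (.l 3)) (.l 5)) (.l 1))),
  (false, (.R (.h1 (.n (.l 4) (.l 0)) (.l 2) (.n (.l 5) (.l 3))) (.l 1))),
  (false, (.R (.h1 (.n (.l 4) (.l 0)) (.l 2) (.n (.l 3) (.l 5))) (.l 1))),
  (false, (.R (.h1 (.n (.l 2) (.l 0)) (.l 4) (.n (.l 5) (.l 3))) (.l 1))),
  (true, (.R (.h1 (.n (.l 4) (.n (.l 2) (.l 0))) (.l 3) (.l 5)) (.l 1))),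
  (false, (.R (.h1 (.n (.n (.l 4) (.l 2)) (.l 0)) (.l 3) (.l 5)) (.l 1))),
  (true, (.R (.h1 (.n (.n (.l 2) (.l 4)) (.l 0)) (.l 3) (.l 5)) (.l 1))),
  (false, (.R (.h1 (.n (.l 0) (.n (.l 2) (.l 4))) (.l 3) (.l 5)) (.l 1))),
  (false, (.R (.L (.l 4) (.h1 (.l 2) (.l 5) (.n (.l 3) (.l 0)))) (.l 1))),
  (true, (.R (.L (.l 4) (.h0 (.l 2) (.n (.l 3) (.l 0)) (.l 5))) (.l 1))),
  (false, (.R (.L (.l 4) (.h0 (.l 0) (.l 2) (.n (.l 5) (.l 3)))) (.l 1))),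
  (true, (.R (.L (.l 4) (.h1 (.l 0) (.l 2) (.n (.l 5) (.l 3)))) (.l 1))),
  (true, (.R (.L (.l 4) (.h0 (.l 0) (.l 2) (.n (.l 3) (.l 5)))) (.l 1))),
  (false, (.R (.L (.l 4) (.h1 (.l 0) (.l 2) (.n (.l 3) (.l 5)))) (.l 1))),
  (false, (.R (.L (.l 4) (.h0 (.l 0) (.n (.l 2) (.l 5)) (.l 3))) (.l 1))),
  (true, (.R (.L (.l 4) (.h1 (.n (.l 2) (.l 0)) (.l 3) (.l 5))) (.l 1))),
  (true, (.R (.L (.l 2) (.h1 (.l 0) (.l 4) (.n (.l 3) (.l 5)))) (.l 1))),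
  (true, (.R (.L (.n (.l 4) (.l 2)) (.h0 (.l 0) (.l 3) (.l 5))) (.l 1))),
  (false, (.R (.L (.n (.l 4) (.l 2)) (.h1 (.l 0) (.l 3) (.l 5))) (.l 1))),
  (false, (.R (.R (.h1 (.l 4) (.l 0) (.l 2)) (.n (.l 3) (.l 5))) (.l 1))),
  (false, (.R (.R (.h0 (.l 2) (.l 4) (.l 0)) (.n (.l 5) (.l 3))) (.l 1))),
  (false, (.R (.R (.h1 (.l 2) (.l 0) (.l 4)) (.n (.l 5) (.l 3))) (.l 1))),
  (true, (.R (.R (.h0 (.l 0) (.l 2) (.l 4)) (.n (.l 5) (.l 3))) (.l 1))),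
  (true, (.R (.R (.h0 (.l 4) (.n (.l 5) (.l 2)) (.l 0)) (.l 3)) (.l 1))),
  (false, (.R (.R (.h0 (.l 4) (.n (.l 2) (.l 5)) (.l 0)) (.l 3)) (.l 1))),
  (false, (.R (.R (.h1 (.l 4) (.l 0) (.n (.l 5) (.l 2))) (.l 3)) (.l 1))),
  (true, (.R (.R (.h1 (.n (.l 4) (.l 2)) (.l 0) (.l 5)) (.l 3)) (.l 1))),
  (false, (.R (.R (.h0 (.l 4) (.n (.l 2) (.l 0)) (.l 3)) (.l 5)) (.l 1))),
  (true, (.R (.R (.h1 (.n (.l 4) (.l 2)) (.l 0) (.l 3)) (.l 5)) (.l 1))),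
  (false, (.L (.n (.l 0) (.n (.l 4) (.l 1))) (.h0 (.l 2) (.l 5) (.l 3)))),
  (true, (.R (.h0 (.l 4) (.n (.l 5) (.l 0)) (.l 1)) (.n (.l 2) (.l 3))))]

/-- Instances. -/
def dat6 : List (Bool × C) := [
  (true, (.R (.h0 (.l 0) (.l 4) (.n (.l 5) (.l 1))) (.n (.l 2) (.l 3)))),
  (true, (.R (.h0 (.l 0) (.n (.l 4) (.l 1)) (.l 5)) (.n (.l 2) (.l 3)))),
  (false, (.R (.h1 (.n (.l 4) (.l 0)) (.l 1) (.l 5)) (.n (.l 2) (.l 3)))),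
  (false, (.R (.h1 (.l 4) (.l 0) (.n (.l 2) (.l 1))) (.n (.l 5) (.l 3)))),
  (false, (.R (.h0 (.l 4) (.n (.l 2) (.l 0)) (.l 1)) (.n (.l 5) (.l 3)))),
  (true, (.R (.h0 (.l 0) (.l 4) (.n (.l 2) (.l 1))) (.n (.l 5) (.l 3)))),
  (false, (.R (.h1 (.l 0) (.l 4) (.n (.l 1) (.l 2))) (.n (.l 5) (.l 3)))),
  (true, (.R (.h0 (.l 0) (.l 2) (.n (.l 4) (.l 1))) (.n (.l 5) (.l 3)))),
  (true, (.R (.h1 (.l 0) (.l 2) (.n (.l 4) (.l 1))) (.n (.l 5) (.l 3)))),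
  (true, (.R (.h0 (.l 0) (.n (.l 1) (.l 2)) (.l 4)) (.n (.l 5) (.l 3)))),
  (true, (.R (.h1 (.n (.l 0) (.l 2)) (.l 1) (.l 4)) (.n (.l 5) (.l 3)))),
  (true, (.R (.h1 (.l 4) (.n (.l 0) (.l 5)) (.n (.l 2) (.l 1))) (.l 3))),
  (true, (.R (.h0 (.l 4) (.n (.l 0) (.l 5)) (.n (.l 1) (.l 2))) (.l 3))),
  (true, (.R (.h0 (.l 4) (.n (.l 0) (.l 2)) (.n (.l 5) (.l 1))) (.l 3))),
  (true, (.R (.h1 (.l 4) (.n (.l 0) (.l 2)) (.n (.l 1) (.l 5))) (.l 3))),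
  (false, (.R (.h0 (.l 4) (.n (.n (.l 0) (.l 5)) (.l 2)) (.l 1)) (.l 3))),
  (false, (.R (.h0 (.l 2) (.l 4) (.n (.l 0) (.n (.l 5) (.l 1)))) (.l 3))),
  (true, (.R (.h1 (.l 2) (.l 4) (.n (.l 0) (.n (.l 5) (.l 1)))) (.l 3))),
  (true, (.R (.h1 (.l 2) (.l 0) (.n (.l 4) (.n (.l 1) (.l 5)))) (.l 3))),
  (true, (.R (.h0 (.l 2) (.n (.l 4) (.l 0)) (.n (.l 5) (.l 1))) (.l 3))),
  (true, (.R (.h1 (.l 2) (.n (.l 4) (.l 0)) (.n (.l 5) (.l 1))) (.l 3))),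
  (false, (.R (.h0 (.l 2) (.n (.l 4) (.l 0)) (.n (.l 1) (.l 5))) (.l 3))),
  (false, (.R (.h0 (.l 2) (.n (.l 0) (.l 4)) (.n (.l 5) (.l 1))) (.l 3))),
  (true, (.R (.h1 (.l 2) (.n (.l 0) (.l 4)) (.n (.l 5) (.l 1))) (.l 3))),
  (false, (.R (.h0 (.l 2) (.n (.l 0) (.l 4)) (.n (.l 1) (.l 5))) (.l 3))),
  (false, (.R (.h1 (.l 2) (.n (.l 0) (.l 4)) (.n (.l 1) (.l 5))) (.l 3))),
  (true, (.R (.h0 (.l 2) (.n (.l 4) (.n (.l 0) (.l 5))) (.l 1)) (.l 3))),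
  (true, (.R (.h0 (.l 2) (.n (.l 0) (.n (.l 4) (.l 1))) (.l 5)) (.l 3))),
  (false, (.R (.h0 (.l 0) (.l 4) (.n (.l 2) (.n (.l 1) (.l 5)))) (.l 3))),
  (false, (.R (.h0 (.l 0) (.l 2) (.n (.l 4) (.n (.l 1) (.l 5)))) (.l 3))),
  (true, (.R (.h0 (.l 0) (.n (.l 4) (.l 2)) (.n (.l 1) (.l 5))) (.l 3))),
  (true, (.R (.h0 (.l 0) (.n (.l 2) (.l 4)) (.n (.l 5) (.l 1))) (.l 3))),
  (true, (.R (.h1 (.l 0) (.n (.l 2) (.l 4)) (.n (.l 5) (.l 1))) (.l 3))),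
  (true, (.R (.h1 (.l 0) (.n (.l 4) (.l 1)) (.n (.l 5) (.l 2))) (.l 3))),
  (true, (.R (.h0 (.l 0) (.n (.l 4) (.n (.l 2) (.l 1))) (.l 5)) (.l 3))),
  (true, (.R (.h0 (.l 0) (.n (.l 2) (.n (.l 4) (.l 1))) (.l 5)) (.l 3))),
  (true, (.R (.h1 (.n (.l 0) (.l 4)) (.l 5) (.n (.l 1) (.l 2))) (.l 3))),
  (true, (.R (.h1 (.n (.l 2) (.n (.l 4) (.l 0))) (.l 1) (.l 5)) (.l 3))),
  (false, (.R (.L (.l 4) (.h1 (.l 2) (.l 0) (.n (.l 1) (.l 5)))) (.l 3))),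
  (false, (.R (.L (.l 4) (.h0 (.l 2) (.n (.l 0) (.l 5)) (.l 1))) (.l 3))),
  (true, (.R (.L (.l 4) (.h0 (.l 0) (.l 2) (.n (.l 5) (.l 1)))) (.l 3))),
  (true, (.R (.L (.l 4) (.h0 (.l 0) (.l 2) (.n (.l 1) (.l 5)))) (.l 3))),
  (false, (.R (.L (.l 0) (.h1 (.l 4) (.l 2) (.n (.l 5) (.l 1)))) (.l 3))),
  (true, (.R (.L (.l 0) (.h0 (.l 4) (.n (.l 5) (.l 1)) (.l 2))) (.l 3))),
  (true, (.R (.L (.l 0) (.h0 (.l 2) (.l 4) (.n (.l 1) (.l 5)))) (.l 3))),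
  (true, (.R (.L (.l 0) (.h1 (.n (.l 2) (.l 4)) (.l 1) (.l 5))) (.l 3))),
  (false, (.R (.L (.l 0) (.R (.h0 (.l 2) (.l 4) (.l 1)) (.l 5))) (.l 3))),
  (true, (.R (.R (.h1 (.l 4) (.l 0) (.l 2)) (.n (.l 5) (.l 1))) (.l 3))),
  (false, (.R (.R (.h0 (.l 2) (.l 4) (.l 0)) (.n (.l 5) (.l 1))) (.l 3))),
  (true, (.R (.R (.h0 (.l 0) (.l 4) (.l 2)) (.n (.l 1) (.l 5))) (.l 3))),
  (false, (.R (.R (.h1 (.l 0) (.l 2) (.l 4)) (.n (.l 5) (.l 1))) (.l 3))),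
  (false, (.R (.R (.h0 (.l 4) (.n (.l 0) (.l 5)) (.l 2)) (.l 1)) (.l 3))),
  (false, (.R (.R (.h1 (.n (.l 0) (.l 4)) (.l 2) (.l 5)) (.l 1)) (.l 3))),
  (true, (.R (.R (.R (.h0 (.l 2) (.l 4) (.l 0)) (.l 5)) (.l 1)) (.l 3))),
  (true, (.R (.R (.h0 (.l 4) (.n (.l 2) (.l 0)) (.l 1)) (.l 5)) (.l 3))),
  (true, (.R (.h0 (.l 4) (.n (.l 2) (.l 0)) (.n (.l 3) (.l 1))) (.l 5))),
  (true, (.R (.h1 (.l 4) (.n (.l 2) (.l 0)) (.n (.l 3) (.l 1))) (.l 5))),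
  (true, (.R (.h1 (.l 4) (.n (.l 0) (.l 2)) (.n (.l 3) (.l 1))) (.l 5))),
  (false, (.R (.h0 (.l 0) (.n (.l 1) (.l 2)) (.n (.l 4) (.l 3))) (.l 5))),
  (false, (.R (.h1 (.l 0) (.n (.l 1) (.l 2)) (.n (.l 4) (.l 3))) (.l 5))),
  (false, (.R (.h1 (.n (.l 0) (.l 2)) (.l 1) (.n (.l 4) (.l 3))) (.l 5))),
  (false, (.R (.h0 (.n (.l 0) (.l 2)) (.n (.l 3) (.l 1)) (.l 4)) (.l 5))),
  (true, (.R (.h1 (.n (.l 4) (.n (.l 2) (.l 0))) (.l 1) (.l 3)) (.l 5))),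
  (true, (.R (.h1 (.n (.n (.l 2) (.l 0)) (.l 4)) (.l 1) (.l 3)) (.l 5))),
  (false, (.R (.R (.h0 (.l 4) (.n (.l 2) (.l 0)) (.l 3)) (.l 1)) (.l 5)))]

/-- All instances. -/
def dat : List (List (Bool × C)) := [dat0, dat1, dat2, dat3, dat4, dat5, dat6]

end Pool.Agent.Helper56Alt
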