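import Pool.Agent.Helper56_Alt.Algebra
import Pool.Agent.Helper56_Alt.Check

/-! Three-torsion in the free alternative algebra. -/

namespace Pool.Agent.Helper56Alt

universe u v

theorem insBlocks_mem {Φ : Type u} [CommRing Φ] {X : Type v}
    (x : Nat → FreeNonUnitalNonAssocAlgebra Φ X) (m : Nat) :
    ∀ (ds : List (List (Bool × C))) (t : T), t.ev x ∈ altIdeal Φ X →
      (insBlocks m ds t).ev x ∈ altIdeal Φ X
  | [], _, ht => ht
  | d :: ds, t, ht => by
      have h := matchT (insBlocks m ds) (insAll (sig m) (sgm m) d t)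
      have h' : insBlocks m (d :: ds) t = insBlocks m ds (insAll (sig m) (sgm m) d t) := by
        rw [← h]
        rfl
      rw [h']
      exact insBlocks_mem x m ds _ (insAll_mem x _ _ d t ht)

theorem insRel_mem {Φ : Type u} [CommRing Φ] {X : Type v}
    (x : Nat → FreeNonUnitalNonAssocAlgebra Φ X) :
    ∀ (m : Nat) (t : T), t.ev x ∈ altIdeal Φ X → (insRel m t).ev x ∈ altIdeal Φ X
  | 0, _, ht => ht
  | m + 1, t, ht => by
      have h := matchT (insRel m) (insBlocks m dat t)
      have h' : insRel (m + 1) t = insRel m (insBlocks m dat t) := by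
        rw [← h]
        rfl
      rw [h']
      exact insRel_mem x m _ (insBlocks_mem x m dat t ht)

theorem tree_mem {Φ : Type u} [CommRing Φ] {X : Type v}
    (x : Nat → FreeNonUnitalNonAssocAlgebra Φ X) : tree.ev x ∈ altIdeal Φ X :=
  insRel_mem x 8 .e (altIdeal Φ X).zero_mem

section

variable {F : Type u} [NonUnitalNonAssocRing F] (x : Nat → F)

/-- One third of a tree. -/
def T.third : T → F
  | .e => 0
  | .nd l _ w c r => T.third l + (c / 3) • w.ev x + T.third r

theorem T.third_smul : ∀ t : T, t.div3 = true → (3 : ℤ) • t.third x = t.ev x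
  | .e, _ => by simp [T.third, T.ev]
  | .nd l k w c r, h => by
      simp only [T.div3, Bool.and_eq_true] at h
      rw [T.third, T.ev, smul_add, smul_add, T.third_smul l h.2.1, T.third_smul r h.2.2, smul_smul]
      have h3 : c % 3 = 0 := eq_of_beq h.1
      have : 3 * (c / 3) = c := Int.mul_ediv_cancel' (Int.dvd_of_emod_eq_zero h3)
      rw [this]

end

section

variable {K : Type u} [CommRing K]

theorem W_ev_model (y : ℕ → M K) (hy : ∀ n, y n = bs K (1 <<< (n % 6)) 1) :
    ∀ w : W, w.ev y = bs K w.mask (w.vc : K)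
  | .l n => by
      rw [W.ev, hy]
      simp only [W.vc, Nat.cast_one]
      rfl
  | .n a b => by
      rw [W.ev, W_ev_model y hy a, W_ev_model y hy b, bs_mul_bs]
      have e1 : W.mask (.n a b) = a.mask ||| b.mask := rfl
      have e2 : W.vc (.n a b) = dd a.mask b.mask * (a.vc * b.vc) := rfl
      rw [e1, e2]
      push_cast
      congr 1
      ring

/-- Coordinate at the full mask. -/
noncomputable def co : M K →ₗ[K] K := Finsupp.lapply 63

theorem co_bs (s : ℕ) (a : K) : co (bs K s a) = if s = 63 then a else 0 :=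
  Finsupp.single_apply

theorem co_third (y : ℕ → M K) (hy : ∀ n, y n = bs K (1 <<< (n % 6)) 1) :
    ∀ t : T, co (t.third y) = (t.val : K)
  | .e => by simp [T.third, T.val]
  | .nd l k w c r => by
      rw [T.third, T.val, map_add, map_add, co_third y hy l, co_third y hy r, map_zsmul,
        W_ev_model y hy, co_bs]
      have : Int.ediv c 3 = c / 3 := rfl
      rw [this]
      push_cast
      congr 2
      rw [zsmul_eq_mul]
      congr 1
      by_cases h : w.mask = 63
      · rw [if_pos h, h]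
        simp
      · rw [if_neg h]
        have : Nat.beq w.mask 63 = false := by
          cases hb : Nat.beq w.mask 63
          · rfl
          · exact absurd (Nat.eq_of_beq_eq_true hb) h
        rw [this]
        simp

end

theorem T.third_map {F : Type u} [NonUnitalNonAssocRing F] {G : Type v} [NonUnitalNonAssocRing G]
    (x : Nat → F) (φ : F →+ G) (hφ : ∀ a b, φ (a * b) = φ a * φ b) :
    ∀ t : T, φ (t.third x) = t.third (fun n => φ (x n)) := by
  have hw : ∀ w : W, φ (w.ev x) = w.ev (fun n => φ (x n)) := by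
    intro w
    induction w with
    | l n => rfl
    | n a b ha hb => rw [W.ev, hφ, ha, hb]; rfl
  intro t
  induction t with
  | e => rw [T.third, map_zero]; rfl
  | nd l k w c r hl hr =>
    rw [T.third, map_add, map_add, map_zsmul, hl, hr, hw]; rfl

section

variable (Φ : Type u) [CommRing Φ]

/-- The quotient by three. -/
abbrev Q : Type u := Φ ⧸ Ideal.span {(3 : Φ)}

theorem three_Q : (3 : Q Φ) = 0 := by
  have : (Ideal.Quotient.mk (Ideal.span {(3 : Φ)}) 3) = 0 := by
    rw [Ideal.Quotient.eq_zero_iff_mem]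
    exact Ideal.mem_span_singleton_self 3
  rw [← this, map_ofNat]

variable {X : Type v} (ι : Fin 6 ↪ X)

/-- Values of the generators in the model. -/
noncomputable def gen : X → M (Q Φ) :=
  Function.extend ι (fun i => bs (Q Φ) (1 <<< (i : ℕ)) 1) 0

/-- The homomorphism to the model. -/
noncomputable def hm : FreeNonUnitalNonAssocAlgebra Φ X →ₙₐ[Φ] M (Q Φ) :=
  FreeNonUnitalNonAssocAlgebra.lift Φ (gen Φ ι)

/-- The same as a linear map. -/
noncomputable def hml : FreeNonUnitalNonAssocAlgebra Φ X →ₗ[Φ] M (Q Φ) where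
  toFun := hm Φ ι
  map_add' := fun a b => map_add (hm Φ ι) a b
  map_smul' := fun r a => map_smul (hm Φ ι) r a

theorem hm_assoc (f g h : FreeNonUnitalNonAssocAlgebra Φ X) :
    hm Φ ι (associator f g h) = associator (hm Φ ι f) (hm Φ ι g) (hm Φ ι h) := by
  simp only [associator, map_sub, map_mul]

theorem ideal_le : altIdeal Φ X ≤ LinearMap.ker (hml Φ ι) := by
  apply sInf_le
  refine ⟨fun f g => ⟨?_, ?_⟩, fun n hn a => ⟨?_, ?_⟩⟩
  · rw [LinearMap.mem_ker]
    exact (hm_assoc Φ ι f f g).trans (alt_left (three_Q Φ) _ _)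
  · rw [LinearMap.mem_ker]
    exact (hm_assoc Φ ι g f f).trans (alt_right (three_Q Φ) _ _)
  · rw [LinearMap.mem_ker] at hn ⊢
    have h1 : hm Φ ι (a * n) = hm Φ ι a * hm Φ ι n := map_mul _ _ _
    have h2 : hm Φ ι n = 0 := hn
    exact h1.trans (by rw [h2, mul_zero])
  · rw [LinearMap.mem_ker] at hn ⊢
    have h1 : hm Φ ι (n * a) = hm Φ ι n * hm Φ ι a := map_mul _ _ _
    have h2 : hm Φ ι n = 0 := hn
    exact h1.trans (by rw [h2, zero_mul])

/-- Coordinate at the full mask, as a map of modules over the base. -/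
noncomputable def coΦ : M (Q Φ) →ₗ[Φ] Q Φ where
  toFun := co
  map_add' := fun a b => map_add co a b
  map_smul' := fun r a => by
    rw [alg_smul, map_smul, RingHom.id_apply, smul_eq_mul, Algebra.smul_def]

/-- The functional on the free alternative algebra. -/
noncomputable def fn : FreeAlt Φ X →ₗ[Φ] Q Φ :=
  (altIdeal Φ X).liftQ ((coΦ Φ).comp (hml Φ ι)) (fun a ha => by
    have h := ideal_le Φ ι ha
    rw [LinearMap.mem_ker] at h ⊢
    rw [LinearMap.comp_apply, h, map_zero])

/-- The variables. -/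
noncomputable def xv (n : ℕ) : FreeNonUnitalNonAssocAlgebra Φ X :=
  FreeNonUnitalNonAssocAlgebra.of Φ (ι (Fin.ofNat 6 n))

/-- The torsion element. -/
noncomputable def tor (t : T) : FreeAlt Φ X := (altIdeal Φ X).mkQ (t.third (xv Φ ι))

variable {t : T}

theorem three_tor (hd : t.div3 = true) (hm : t.ev (xv Φ ι) ∈ altIdeal Φ X) :
    (3 : Φ) • tor Φ ι t = 0 := by
  have h1 : (3 : Φ) • tor Φ ι t = (3 : ℤ) • tor Φ ι t := by
    rw [← Int.cast_smul_eq_zsmul Φ]
    norm_num
  rw [h1, tor, ← map_zsmul, T.third_smul _ _ hd, Submodule.mkQ_apply,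
    Submodule.Quotient.mk_eq_zero]
  exact hm

theorem fn_tor : fn Φ ι (tor Φ ι t) = (t.val : Q Φ) := by
  have h1 : fn Φ ι (tor Φ ι t) = co (hm Φ ι (t.third (xv Φ ι))) := rfl
  rw [h1]
  have h2 := T.third_map (xv Φ ι) (AddMonoidHomClass.toAddMonoidHom (hm Φ ι))
    (fun a b => map_mul (hm Φ ι) a b) t
  have h3 : hm Φ ι (t.third (xv Φ ι)) = t.third (fun n => hm Φ ι (xv Φ ι n)) := h2
  rw [h3]
  apply co_third
  intro n
  rw [xv, hm, FreeNonUnitalNonAssocAlgebra.lift_of_apply, gen, ι.injective.extend_apply]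
  rfl

theorem fn_tor_unit (hv : t.val % 3 ≠ 0) : ∃ c : Φ, c • fn Φ ι (tor Φ ι t) = 1 := by
  rw [fn_tor]
  have h3 : (3 : Q Φ) = 0 := three_Q Φ
  have hd : t.val = 3 * (t.val / 3) + t.val % 3 := (Int.mul_ediv_add_emod _ _).symm
  have hcast : (t.val : Q Φ) = ((t.val % 3 : ℤ) : Q Φ) := by
    conv_lhs => rw [hd]
    push_cast
    rw [h3, zero_mul, zero_add]
  rw [hcast]
  have hc : t.val % 3 = 1 ∨ t.val % 3 = 2 := by omega
  rcases hc with hc | hc
  · exact ⟨1, by rw [hc, one_smul, Int.cast_one]⟩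
  · refine ⟨2, ?_⟩
    rw [hc, Algebra.smul_def]
    have : (algebraMap Φ (Q Φ)) 2 = 2 := map_ofNat _ 2
    rw [this]
    push_cast
    linear_combination h3

theorem tor_ne_zero (hv : t.val % 3 ≠ 0) (h : ¬ IsUnit (3 : Φ)) : tor Φ ι t ≠ 0 := by
  intro h0
  obtain ⟨c, hc⟩ := fn_tor_unit Φ ι hv
  rw [h0, map_zero, smul_zero] at hc
  apply h
  rw [← Ideal.span_singleton_eq_top]
  rw [Ideal.eq_top_iff_one, ← Ideal.Quotient.eq_zero_iff_mem, map_one]
  exact hc.symm

include ι in
theorem flat_imp (hd : t.div3 = true) (hm : t.ev (xv Φ ι) ∈ altIdeal Φ X) (hv : t.val % 3 ≠ 0)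
    (hF : Module.Flat Φ (FreeAlt Φ X)) : ∃ r : Φ, 9 * r = 3 := by
  have h0 : ∑ i : Fin 1, (fun _ => (3 : Φ)) i • (fun _ => tor Φ ι t) i = 0 := by
    rw [Fin.sum_univ_one]
    exact three_tor Φ ι hd hm
  obtain ⟨κ, a, y, h1, h2⟩ := Module.Flat.isTrivialRelation_of_sum_smul_eq_zero h0
  have h1' := h1 0
  obtain ⟨c, hc⟩ := fn_tor_unit Φ ι hv
  have h3 : fn Φ ι (tor Φ ι t) = ∑ j, a 0 j • fn Φ ι (y j) := by
    have := congrArg (fn Φ ι) h1'
    simp only [map_sum, map_smul] at this
    exact this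
  choose b hb using fun j => Ideal.Quotient.mk_surjective (fn Φ ι (y j))
  have h4 : (Ideal.Quotient.mk (Ideal.span {(3 : Φ)})) (c * ∑ j, a 0 j * b j - 1) = 0 := by
    rw [map_sub, map_mul, map_sum, map_one, sub_eq_zero, ← hc, h3, Algebra.smul_def]
    congr 1
    apply Finset.sum_congr rfl
    intro j _
    rw [map_mul, hb, Algebra.smul_def]
    rfl
  rw [Ideal.Quotient.eq_zero_iff_mem, Ideal.mem_span_singleton'] at h4
  obtain ⟨r, hr⟩ := h4
  have h5 : ∑ j, a 0 j * b j * 3 = 0 := by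
    apply Finset.sum_eq_zero
    intro j _
    have := h2 j
    rw [Fin.sum_univ_one] at this
    have h6 : (3 : Φ) * a 0 j = 0 := this
    linear_combination b j * h6
  refine ⟨-r, ?_⟩
  have h7 : c * (∑ j, a 0 j * b j) * 3 = 0 := by
    rw [mul_assoc, Finset.sum_mul, h5, mul_zero]
  linear_combination (-3) * hr - h7

end

theorem div3_tree : tree.div3 = true := by
  have := fin_tree
  simp only [fin, Bool.and_eq_true] at this
  exact this.1

theorem val_tree : tree.val % 3 ≠ 0 := by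
  have := fin_tree
  simp only [fin, Bool.and_eq_true] at this
  have h : (tree.val % 3 != 0) = true := this.2
  exact bne_iff_ne.mp h

theorem exists_tree : ∃ t : T, t.div3 = true ∧ t.val % 3 ≠ 0 ∧
    ∀ (Φ : Type u) [CommRing Φ] (X : Type v) (x : Nat → FreeNonUnitalNonAssocAlgebra Φ X),
      t.ev x ∈ altIdeal Φ X :=
  ⟨tree, div3_tree, val_tree, fun _ _ _ x => tree_mem x⟩

theorem exists_torsion (Φ : Type u) [CommRing Φ] (X : Type v) (ι : Fin 6 ↪ X)
    (h : ¬ IsUnit (3 : Φ)) : ∃ f : FreeAlt Φ X, f ≠ 0 ∧ (3 : Φ) • f = 0 := by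
  obtain ⟨t, h1, h2, h3⟩ := exists_tree.{u, v}
  exact ⟨tor Φ ι t, tor_ne_zero Φ ι h2 h, three_tor Φ ι h1 (h3 Φ X _)⟩

theorem flat_imp' (Φ : Type u) [CommRing Φ] (X : Type v) (ι : Fin 6 ↪ X)
    (hF : Module.Flat Φ (FreeAlt Φ X)) : ∃ r : Φ, 9 * r = 3 := by
  obtain ⟨t, h1, h2, h3⟩ := exists_tree.{u, v}
  exact flat_imp Φ ι h1 (h3 Φ X _) h2 hF

end Pool.Agent.Helper56Alt
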